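import Mathlib

/-!
# Definitions for the linear case of MP_9700b3_al

* `FR G`: the group `G` has finite special (Malcev-Prüfer) rank.
* `Stp S X Y`: one step of a chain of subspaces on which every member of `S` acts by scalars on the factor `Y / X`.
* `TF S`: there is a finite chain of such steps from `⊥` to `⊤` (`S` is simultaneously triangularizable).
-/

set_option autoImplicit false

namespace P9700a

/-- `FR G`: the group `G` has finite special (Malcev-Prüfer) rank: for some `r` every finitely
generated subgroup of `G` is generated by at most `r` elements. -/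
def FR (G : Type*) [Group G] : Prop :=
  ∃ r : ℕ, ∀ K : Subgroup G, K.FG →
    ∃ s : Finset G, s.card ≤ r ∧ Subgroup.closure (s : Set G) = K

section

variable {K V : Type*} [Field K] [AddCommGroup V] [Module K V]

/-- One step of an `S`-chain: `X ≤ Y` and every `φ ∈ S` acts on `Y / X` as a scalar. -/
def Stp (S : Set (Module.End K V)) (X Y : Submodule K V) : Prop :=
  X ≤ Y ∧ ∀ φ ∈ S, ∃ c : K, ∀ w ∈ Y, φ w - c • w ∈ X

/-- `S` is simultaneously triangularizable: there is a finite chain of `S`-steps from `⊥` to `⊤`. -/
def TF (S : Set (Module.End K V)) : Prop :=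
  Relation.ReflTransGen (Stp S) ⊥ ⊤

end

end P9700a
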