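import Mathlib
import Pool.Agent.Lib.P9700a.Defs

/-!
# Chains: inheritance

`Stp S X Y`, `TF S` are as in `P9700a/Defs.lean`. Note that `Stp S X Y` implies that `X` and `Y` are invariant under all `φ ∈ S`.

* `TF.mono`: `Relation.ReflTransGen.mono`.
* `TF.sub`: map the chain by `X ↦ X.comap i` (`Relation.ReflTransGen.lift`): `comap i ⊥ = ker i = ⊥`, `comap i ⊤ = ⊤`.
* `TF.quot`: map the chain by `X ↦ X.map p`.
* `TF.hom`: for `X ≤ X'` a step in `V1` and `Y ≤ Y'` a step in `V2` let `E Y X' Y' = {φ : φ(Y) = 0, φ(Y') ⊆ X'}`; a step `X → X'` in `V1` and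
  `Y → Y'` in `V2` give a step `E Y X Y' → E Y X' Y'` with the scalar `c1(s) c2(t)`: for `y ∈ Y'`, `t y = c2 y + y'`, `y' ∈ Y`, `φ y' = 0`,
  `s (φ (t y)) - c1 c2 φ y = c2 (s (φ y) - c1 φ y) ∈ X`. With `E_Y = {φ : φ(Y) = 0}`: `E Y ⊥ Y' = E_{Y'}`, `E Y ⊤ Y' = E_Y`; so along the chain of `V1` one goes
  from `E_{Y'}` to `E_Y`. Along the chain of `V2` (induction on `Relation.ReflTransGen`) from `E_⊤ = ⊥` to `E_⊥ = ⊤`.
-/

set_option autoImplicit false

namespace P9700a

variable {K V V1 V2 : Type*} [Field K] [AddCommGroup V] [Module K V]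
  [AddCommGroup V1] [Module K V1] [AddCommGroup V2] [Module K V2]

theorem TF.mono {S S' : Set (Module.End K V)} (h : S' ⊆ S) (hS : TF S) : TF S' := by
  refine Relation.ReflTransGen.mono ?_ _ _ hS
  intro X Y hXY
  exact ⟨hXY.1, fun φ hφ => hXY.2 φ (h hφ)⟩

theorem TF.sub {S : Set (Module.End K V)} {S1 : Set (Module.End K V1)} (i : V1 →ₗ[K] V)
    (hi : Function.Injective i) (h : ∀ ψ ∈ S1, ∃ φ ∈ S, ∀ w, i (ψ w) = φ (i w)) (hS : TF S) :
    TF S1 := by
  have h1 : Relation.ReflTransGen (Stp S1) (Submodule.comap i ⊥) (Submodule.comap i ⊤) := by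
    refine Relation.ReflTransGen.lift (fun X => Submodule.comap i X) ?_ _ _ hS
    intro X Y hXY
    refine ⟨Submodule.comap_mono hXY.1, fun ψ hψ => ?_⟩
    obtain ⟨φ, hφ, hw⟩ := h ψ hψ
    obtain ⟨c, hc⟩ := hXY.2 φ hφ
    refine ⟨c, fun w hw' => ?_⟩
    have := hc (i w) hw'
    rw [Submodule.mem_comap, map_sub, map_smul, hw]
    exact this
  have e0 : Submodule.comap i ⊥ = ⊥ := LinearMap.ker_eq_bot.mpr hi
  rw [e0, Submodule.comap_top] at h1
  exact h1

theorem TF.quot {S : Set (Module.End K V)} {S1 : Set (Module.End K V1)} (p : V →ₗ[K] V1)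
    (hp : Function.Surjective p) (h : ∀ ψ ∈ S1, ∃ φ ∈ S, ∀ w, ψ (p w) = p (φ w)) (hS : TF S) :
    TF S1 := by
  have h1 : Relation.ReflTransGen (Stp S1) (Submodule.map p ⊥) (Submodule.map p ⊤) := by
    refine Relation.ReflTransGen.lift (fun X => Submodule.map p X) ?_ _ _ hS
    intro X Y hXY
    refine ⟨Submodule.map_mono hXY.1, fun ψ hψ => ?_⟩
    obtain ⟨φ, hφ, hw⟩ := h ψ hψ
    obtain ⟨c, hc⟩ := hXY.2 φ hφ
    refine ⟨c, ?_⟩
    rintro _ ⟨w, hw', rfl⟩
    refine ⟨φ w - c • w, hc w hw', ?_⟩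
    rw [map_sub, map_smul, hw]
  rw [Submodule.map_bot, Submodule.map_top, LinearMap.range_eq_top.mpr hp] at h1
  exact h1

namespace ChainAux

/-- linear maps killing `Y` and mapping `Y'` into `X`. -/
def EE (Y : Submodule K V2) (X : Submodule K V1) (Y' : Submodule K V2) :
    Submodule K (V2 →ₗ[K] V1) where
  carrier := {φ | (∀ y ∈ Y, φ y = 0) ∧ ∀ y ∈ Y', φ y ∈ X}
  zero_mem' := ⟨fun _ _ => rfl, fun _ _ => X.zero_mem⟩
  add_mem' := by
    rintro φ ψ ⟨h1, h2⟩ ⟨h3, h4⟩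
    refine ⟨fun y hy => ?_, fun y hy => ?_⟩
    · rw [LinearMap.add_apply, h1 y hy, h3 y hy, add_zero]
    · exact X.add_mem (h2 y hy) (h4 y hy)
  smul_mem' := by
    rintro c φ ⟨h1, h2⟩
    refine ⟨fun y hy => ?_, fun y hy => ?_⟩
    · rw [LinearMap.smul_apply, h1 y hy, smul_zero]
    · exact X.smul_mem c (h2 y hy)

theorem mem_EE {Y : Submodule K V2} {X : Submodule K V1} {Y' : Submodule K V2}
    {φ : V2 →ₗ[K] V1} : φ ∈ EE Y X Y' ↔ (∀ y ∈ Y, φ y = 0) ∧ ∀ y ∈ Y', φ y ∈ X := Iff.rfl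

end ChainAux

open ChainAux

theorem TF.hom {S1 : Set (Module.End K V1)} {S2 : Set (Module.End K V2)} (h1 : TF S1)
    (h2 : TF S2) :
    TF {β : Module.End K (V2 →ₗ[K] V1) | ∃ s ∈ S1, ∃ t ∈ S2, ∀ φ : V2 →ₗ[K] V1,
      β φ = s ∘ₗ φ ∘ₗ t} := by
  set T : Set (Module.End K (V2 →ₗ[K] V1)) := {β | ∃ s ∈ S1, ∃ t ∈ S2, ∀ φ : V2 →ₗ[K] V1,
      β φ = s ∘ₗ φ ∘ₗ t} with hT
  have key : ∀ Z : Submodule K V2, Relation.ReflTransGen (Stp S2) Z ⊤ →
      Relation.ReflTransGen (Stp T) ⊥ (EE Z ⊤ ⊤) := by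
    intro Z hZ
    induction hZ using Relation.ReflTransGen.head_induction_on with
    | refl =>
      have e : (EE ⊤ ⊤ ⊤ : Submodule K (V2 →ₗ[K] V1)) = ⊥ := by
        rw [eq_bot_iff]
        intro φ hφ
        rw [Submodule.mem_bot]
        ext y
        exact hφ.1 y trivial
      rw [e]
    | @head Y Y' hY hY' ih =>
      refine ih.trans ?_
      have hstep : ∀ X : Submodule K V1, Relation.ReflTransGen (Stp S1) ⊥ X →
          Relation.ReflTransGen (Stp T) (EE Y' ⊤ ⊤) (EE Y X Y') := by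
        intro X hX
        induction hX with
        | refl =>
          have e : (EE Y' ⊤ ⊤ : Submodule K (V2 →ₗ[K] V1)) = EE Y ⊥ Y' := by
            ext φ
            rw [mem_EE, mem_EE]
            constructor
            · rintro ⟨h3, -⟩
              exact ⟨fun y hy => h3 y (hY.1 hy), fun y hy => by rw [h3 y hy]; exact zero_mem _⟩
            · rintro ⟨-, h3⟩
              exact ⟨fun y hy => (Submodule.mem_bot K).mp (h3 y hy), fun _ _ => trivial⟩
          rw [e]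
        | @tail X X' _ hXX' ih2 =>
          refine ih2.tail ⟨?_, ?_⟩
          · rintro φ ⟨h3, h4⟩
            exact ⟨h3, fun y hy => hXX'.1 (h4 y hy)⟩
          · rintro β ⟨s, hs, t, ht, hβ⟩
            obtain ⟨c1, hc1⟩ := hXX'.2 s hs
            obtain ⟨c2, hc2⟩ := hY.2 t ht
            refine ⟨c1 * c2, ?_⟩
            rintro φ ⟨h3, h4⟩
            have htY : ∀ y ∈ Y, t y ∈ Y := by
              intro y hy
              have := Y.add_mem (hc2 y (hY.1 hy)) (Y.smul_mem c2 hy)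
              rwa [sub_add_cancel] at this
            refine ⟨fun y hy => ?_, fun y hy => ?_⟩
            · rw [LinearMap.sub_apply, hβ, LinearMap.smul_apply, h3 y hy]
              simp only [LinearMap.comp_apply]
              rw [h3 (t y) (htY y hy), map_zero, smul_zero, sub_zero]
            · rw [LinearMap.sub_apply, hβ, LinearMap.smul_apply]
              simp only [LinearMap.comp_apply]
              have e1 : φ (t y) = c2 • φ y := by
                have := h3 _ (hc2 y hy)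
                rw [map_sub, map_smul, sub_eq_zero] at this
                exact this
              rw [e1, map_smul, mul_comm c1 c2, mul_smul, ← smul_sub]
              exact X.smul_mem c2 (hc1 _ (h4 y hy))
      have h5 := hstep ⊤ h1
      have e2 : (EE Y ⊤ Y' : Submodule K (V2 →ₗ[K] V1)) = EE Y ⊤ ⊤ := by
        ext φ
        rw [mem_EE, mem_EE]
        exact ⟨fun h => ⟨h.1, fun _ _ => trivial⟩, fun h => ⟨h.1, fun _ _ => trivial⟩⟩
      rw [← e2]
      exact h5
  have h6 := key ⊥ h2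
  have e3 : (EE ⊥ ⊤ ⊤ : Submodule K (V2 →ₗ[K] V1)) = ⊤ := by
    rw [eq_top_iff]
    intro φ _
    refine ⟨fun y hy => ?_, fun _ _ => trivial⟩
    rw [(Submodule.mem_bot K).mp hy, map_zero]
  rw [e3] at h6
  exact h6

end P9700a
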