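import Mathlib
import Pool.Agent.Lib.P9700a.Defs

/-!
# Chains: eigenvector, semi-invariant functional, commutators, triangular matrices

`Stp S X Y`, `TF S` are as in `P9700a/Defs.lean`. Note that `Stp S X Y` implies that `X` and `Y` are invariant under all `φ ∈ S`.

* `TF.eigen`: for every `Z ≠ ⊥` with `ReflTransGen (Stp S) ⊥ Z` there is `v ≠ 0` with `φ v = c v` (induction on the last step `X → Z`: if `X ≠ ⊥` use the
  induction hypothesis; if `X = ⊥` any nonzero `v ∈ Z` works).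
* `TF.semi`: for every `Z ≠ ⊤` with `ReflTransGen (Stp S) Z ⊤` (`head_induction_on`): first step `Z → Y`: if `Y ≠ ⊤` use the induction hypothesis;
  if `Y = ⊤` take `f ≠ 0` vanishing on `Z` (`Submodule.exists_le_ker_of_lt_top`).
* `TF.comm`: for a step `X → Y` of `S = range α`, `x, y : H`, `α (x*y)` and `α (y*x)` both act on `Y / X` by `c_x c_y`; writing `w ∈ Y` as
  `w = α (y*x) w''` with `w'' = α ((y*x)⁻¹) w ∈ Y` one gets `(α (x*y*x⁻¹*y⁻¹) - 1) w = α (x*y) w'' - α (y*x) w'' ∈ X`. So `u - 1` maps `Y` into `X` for each step; by induction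
  along the chain `(u - 1)^n` kills `Z` for some `n`.
* `TF.matrix`: `X_i = {w : ∀ j, i ≤ j → (P w)_j = 0}`, `i = 0..n`, `X_0 = ⊥`, `X_n = ⊤`; step `X_i → X_{i+1}` with scalar `(P M P⁻¹)_{ii}`.
-/

set_option autoImplicit false

namespace P9700a

variable {K V : Type*} [Field K] [AddCommGroup V] [Module K V]

namespace ChainBAux

theorem eigen_aux {S : Set (Module.End K V)} {Z : Submodule K V}
    (h : Relation.ReflTransGen (Stp S) ⊥ Z) (hZ : Z ≠ ⊥) :
    ∃ v : V, v ≠ 0 ∧ ∀ φ ∈ S, ∃ c : K, φ v = c • v := by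
  induction h with
  | refl => exact absurd rfl hZ
  | @tail X Y h1 h2 ih =>
    by_cases hX : X = ⊥
    · subst hX
      obtain ⟨v, hv, hv0⟩ := Submodule.exists_mem_ne_zero_of_ne_bot hZ
      refine ⟨v, hv0, fun φ hφ => ?_⟩
      obtain ⟨c, hc⟩ := h2.2 φ hφ
      have := hc v hv
      rw [Submodule.mem_bot] at this
      exact ⟨c, sub_eq_zero.1 this⟩
    · exact ih hX

theorem semi_aux {S : Set (Module.End K V)} {Z : Submodule K V}
    (h : Relation.ReflTransGen (Stp S) Z ⊤) :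
    Z ≠ ⊤ → ∃ f : V →ₗ[K] K, f ≠ 0 ∧ ∀ φ ∈ S, ∃ c : K, ∀ w, f (φ w) = c * f w := by
  induction h using Relation.ReflTransGen.head_induction_on with
  | refl => exact fun hZ => absurd rfl hZ
  | @head X Y h1 h2 ih =>
    intro hZ
    by_cases hY : Y = ⊤
    · subst hY
      obtain ⟨f, hf0, hf⟩ := Submodule.exists_le_ker_of_lt_top X (lt_top_iff_ne_top.2 hZ)
      refine ⟨f, hf0, fun φ hφ => ?_⟩
      obtain ⟨c, hc⟩ := h1.2 φ hφ
      refine ⟨c, fun w => ?_⟩
      have h3 := hf (hc w Submodule.mem_top)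
      rw [LinearMap.mem_ker, map_sub, map_smul, sub_eq_zero, smul_eq_mul] at h3
      exact h3
    · exact ih hY

theorem comm_step {H : Type*} [Group H] (α : H →* Module.End K V) (S : Set (Module.End K V))
    (hα : ∀ h, α h ∈ S) (x y : H) {X Y : Submodule K V} (h : Stp S X Y) {w : V} (hw : w ∈ Y) :
    (α (x * y * x⁻¹ * y⁻¹) - 1) w ∈ X := by
  obtain ⟨hXY, hst⟩ := h
  have hinv : ∀ g : H, ∀ v ∈ Y, α g v ∈ Y := by
    intro g v hv
    obtain ⟨c, hc⟩ := hst _ (hα g)
    have e1 : α g v = (α g v - c • v) + c • v := by abel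
    rw [e1]
    exact Y.add_mem (hXY (hc v hv)) (Y.smul_mem c hv)
  set v : V := α (y * x)⁻¹ w with hv
  have hvY : v ∈ Y := hinv _ w hw
  have e2 : α (y * x) v = w := by
    rw [hv, ← Module.End.mul_apply, ← map_mul, mul_inv_cancel, map_one, Module.End.one_apply]
  have e3 : α (x * y * x⁻¹ * y⁻¹) w = α (x * y) v := by
    rw [← e2, ← Module.End.mul_apply, ← map_mul]
    congr 2
    group
  rw [LinearMap.sub_apply, e3, Module.End.one_apply, ← e2]
  obtain ⟨a, ha⟩ := hst _ (hα x)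
  obtain ⟨b, hb⟩ := hst _ (hα y)
  have k1 : α (x * y) v - (a * b) • v ∈ X := by
    have h1 := ha (α y v) (hinv _ _ hvY)
    have h2 := X.smul_mem a (hb v hvY)
    have h3 := X.add_mem h1 h2
    have e4 : α (x * y) v - (a * b) • v = α x (α y v) - a • α y v + a • (α y v - b • v) := by
      rw [map_mul, Module.End.mul_apply, smul_sub, smul_smul]
      abel
    rw [e4]
    exact h3
  have k2 : α (y * x) v - (a * b) • v ∈ X := by
    have h1 := hb (α x v) (hinv _ _ hvY)
    have h2 := X.smul_mem b (ha v hvY)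
    have h3 := X.add_mem h1 h2
    have e4 : α (y * x) v - (a * b) • v = α y (α x v) - b • α x v + b • (α x v - a • v) := by
      rw [map_mul, Module.End.mul_apply, smul_sub, smul_smul, mul_comm a b]
      abel
    rw [e4]
    exact h3
  have k3 := X.sub_mem k1 k2
  have e5 : α (x * y) v - (a * b) • v - (α (y * x) v - (a * b) • v)
      = α (x * y) v - α (y * x) v := by abel
  rwa [e5] at k3

theorem comm_aux {H : Type*} [Group H] (α : H →* Module.End K V) (S : Set (Module.End K V))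
    (hα : ∀ h, α h ∈ S) (x y : H) {Z : Submodule K V}
    (h : Relation.ReflTransGen (Stp S) ⊥ Z) :
    ∃ n : ℕ, ∀ w ∈ Z, ((α (x * y * x⁻¹ * y⁻¹) - 1) ^ n) w = 0 := by
  induction h with
  | refl => exact ⟨0, fun w hw => by rw [(Submodule.mem_bot K).1 hw, map_zero]⟩
  | @tail X Y h1 h2 ih =>
    obtain ⟨n, hn⟩ := ih
    refine ⟨n + 1, fun w hw => ?_⟩
    rw [pow_succ, Module.End.mul_apply]
    exact hn _ (comm_step α S hα x y h2 hw)

/-- the vectors whose image under `P` has its coordinates from `i` on equal to zero -/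
def Xm {n : ℕ} (P : Matrix (Fin n) (Fin n) K) (i : ℕ) : Submodule K (Fin n → K) where
  carrier := {w | ∀ j : Fin n, i ≤ (j : ℕ) → (P.mulVec w) j = 0}
  add_mem' := by
    intro v w hv hw j hj
    rw [Matrix.mulVec_add, Pi.add_apply, hv j hj, hw j hj, add_zero]
  zero_mem' := by
    intro j _
    rw [Matrix.mulVec_zero, Pi.zero_apply]
  smul_mem' := by
    intro c w hw j hj
    rw [Matrix.mulVec_smul, Pi.smul_apply, hw j hj, smul_zero]

theorem mem_Xm {n : ℕ} {P : Matrix (Fin n) (Fin n) K} {i : ℕ} {w : Fin n → K} :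
    w ∈ Xm P i ↔ ∀ j : Fin n, i ≤ (j : ℕ) → (P.mulVec w) j = 0 := Iff.rfl

end ChainBAux

theorem TF.eigen [Nontrivial V] {S : Set (Module.End K V)} (h : TF S) :
    ∃ v : V, v ≠ 0 ∧ ∀ φ ∈ S, ∃ c : K, φ v = c • v :=
  ChainBAux.eigen_aux h top_ne_bot

theorem TF.semi [Nontrivial V] {S : Set (Module.End K V)} (h : TF S) :
    ∃ f : V →ₗ[K] K, f ≠ 0 ∧ ∀ φ ∈ S, ∃ c : K, ∀ w, f (φ w) = c * f w :=
  ChainBAux.semi_aux h bot_ne_top

theorem TF.comm {H : Type*} [Group H] (α : H →* Module.End K V) (S : Set (Module.End K V))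
    (hS : TF S) (hα : ∀ h, α h ∈ S) (x y : H) :
    IsNilpotent (α (x * y * x⁻¹ * y⁻¹) - 1) := by
  obtain ⟨n, hn⟩ := ChainBAux.comm_aux α S hα x y hS
  exact ⟨n, LinearMap.ext fun w => hn w Submodule.mem_top⟩

theorem TF.matrix {n : ℕ} (S : Set (Matrix (Fin n) (Fin n) K)) (P : Matrix.GeneralLinearGroup (Fin n) K)
    (h : ∀ M ∈ S, ∀ i j : Fin n, j < i →
      ((P : Matrix (Fin n) (Fin n) K) * M * ((P⁻¹ : Matrix.GeneralLinearGroup (Fin n) K) :
        Matrix (Fin n) (Fin n) K)) i j = 0) :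
    TF ((fun M => (Matrix.toLin' M : Module.End K (Fin n → K))) '' S) := by
  set S' : Set (Module.End K (Fin n → K)) :=
    (fun M => (Matrix.toLin' M : Module.End K (Fin n → K))) '' S with hS'
  have hPP : ((P⁻¹ : Matrix.GeneralLinearGroup (Fin n) K) : Matrix (Fin n) (Fin n) K) *
      (P : Matrix (Fin n) (Fin n) K) = 1 := by
    rw [← Units.val_mul, inv_mul_cancel, Units.val_one]
  have h0 : ChainBAux.Xm (P : Matrix (Fin n) (Fin n) K) 0 = ⊥ := by
    rw [eq_bot_iff]
    intro w hw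
    rw [ChainBAux.mem_Xm] at hw
    have h1 : (P : Matrix (Fin n) (Fin n) K).mulVec w = 0 := funext fun j => hw j (Nat.zero_le _)
    rw [Submodule.mem_bot]
    calc w = (1 : Matrix (Fin n) (Fin n) K).mulVec w := (Matrix.one_mulVec w).symm
      _ = 0 := by rw [← hPP, ← Matrix.mulVec_mulVec, h1, Matrix.mulVec_zero]
  have hn : ChainBAux.Xm (P : Matrix (Fin n) (Fin n) K) n = ⊤ := by
    rw [eq_top_iff]
    intro w _
    rw [ChainBAux.mem_Xm]
    intro j hj
    exact absurd j.2 (not_lt.2 hj)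
  have hstep : ∀ i, i < n → Stp S' (ChainBAux.Xm (P : Matrix (Fin n) (Fin n) K) i)
      (ChainBAux.Xm (P : Matrix (Fin n) (Fin n) K) (i + 1)) := by
    intro i hi
    refine ⟨fun w hw j hj => hw j (by omega), ?_⟩
    rintro φ ⟨M, hM, rfl⟩
    set T : Matrix (Fin n) (Fin n) K := (P : Matrix (Fin n) (Fin n) K) * M *
      ((P⁻¹ : Matrix.GeneralLinearGroup (Fin n) K) : Matrix (Fin n) (Fin n) K) with hT
    refine ⟨T ⟨i, hi⟩ ⟨i, hi⟩, fun w hw => ?_⟩
    rw [ChainBAux.mem_Xm] at hw ⊢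
    intro j hj
    have e1 : (P : Matrix (Fin n) (Fin n) K) * M = T * (P : Matrix (Fin n) (Fin n) K) := by
      rw [hT, Matrix.mul_assoc, hPP, Matrix.mul_one]
    change (P : Matrix (Fin n) (Fin n) K).mulVec (Matrix.toLin' M w - T ⟨i, hi⟩ ⟨i, hi⟩ • w) j = 0
    rw [Matrix.mulVec_sub, Matrix.toLin'_apply, Matrix.mulVec_mulVec, e1, ← Matrix.mulVec_mulVec,
      Matrix.mulVec_smul, Pi.sub_apply, Pi.smul_apply, smul_eq_mul]
    set u := (P : Matrix (Fin n) (Fin n) K).mulVec w with hu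
    have e2 : T.mulVec u j = T j j * u j := by
      rw [Matrix.mulVec, dotProduct]
      refine Finset.sum_eq_single j (fun l _ hl => ?_) (fun h => absurd (Finset.mem_univ j) h)
      rcases lt_or_gt_of_ne hl with hlt | hgt
      · have h5 : T j l = 0 := h M hM j l hlt
        rw [h5, zero_mul]
      · have : (j : ℕ) < (l : ℕ) := hgt
        rw [hw l (by omega), mul_zero]
    rw [e2]
    rcases Nat.eq_or_lt_of_le hj with h4 | h4
    · have e3 : (⟨i, hi⟩ : Fin n) = j := Fin.ext h4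
      rw [e3, sub_self]
    · rw [hw j (by omega), mul_zero, mul_zero, sub_zero]
  have hch : ∀ i, i ≤ n → Relation.ReflTransGen (Stp S') ⊥
      (ChainBAux.Xm (P : Matrix (Fin n) (Fin n) K) i) := by
    intro i
    induction i with
    | zero => intro _; rw [h0]
    | succ i ih => exact fun hi => (ih (by omega)).tail (hstep i (by omega))
  have := hch n le_rfl
  rw [hn] at this
  exact this

end P9700a
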