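import Mathlib
import Pool.Agent.Lib.P9700a.Defs

/-!
# Finite special rank: images, subgroups, extensions, finite index, products

Notation: `FR G` is the definition of `P9700a/Defs.lean`.

* `FR.of_surjective`: a f.g. `K ≤ H` is the closure of a finite set; lift it, `K' ≤ G` the closure of the lift is f.g.,
  so generated by `s`, `s.card ≤ r`; `K = K'.map f = closure (f '' s)` (use `Finset.image`, `Finset.card_image_le`,
  `MonoidHom.map_closure`).
* `FR.of_injective`: `K ≤ G` f.g.; `K.map f` f.g. (`Subgroup.FG.map`), generated by `s`, `s ⊆ K.map f`; take preimages.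
* `FR.of_ker_range` (extension): `rN` for the kernel, `rQ` for the range. `K ≤ G` f.g. with finite generating set `t`.
  `(K.map f)` is f.g.; generated by `≤ rQ` elements, lifted to `sQ ⊆ K` (finset of `G`). Each `x ∈ t` is `w * k` with
  `w ∈ closure sQ` and `k ∈ K ⊓ f.ker`. `L` = closure of these finitely many `k`'s `≤ f.ker`, f.g., generated by
  `≤ rN` elements `u`. `K = closure (sQ ∪ u)`.
* `FR.of_finite`: take `r = Nat.card G`.
* `FR.of_finiteIndex`: the normal core `N` of `H` has finite index (`Subgroup.normalCore`), `FR N` (embeds into `H`), and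
  `G ⧸ N` is finite: `FR.of_ker_range (QuotientGroup.mk' N)`.
* `FR.prod`: `FR.of_ker_range (MonoidHom.fst G H)`; its kernel embeds into `H` by `snd`.
* `fr_iff`: `Subgroup.map A.subtype` / `Subgroup.subgroupOf` translation.
-/

set_option autoImplicit false

namespace P9700a

namespace RankAux

/-- generators of the image of a subgroup can be lifted into the subgroup -/
theorem lift_set {G H : Type*} [Group G] [Group H] (f : G →* H) (K : Subgroup G) (s : Finset H)
    (hs : Subgroup.closure (s : Set H) = K.map f) :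
    ∃ s' : Finset G, s'.card ≤ s.card ∧ (∀ x ∈ s', x ∈ K) ∧ f '' (s' : Set G) = (s : Set H) := by
  classical
  have h1 : ∀ y ∈ s, ∃ x ∈ K, f x = y := by
    intro y hy
    have : y ∈ K.map f := by
      rw [← hs]
      exact Subgroup.subset_closure (Finset.mem_coe.2 hy)
    exact Subgroup.mem_map.1 this
  choose! g hgK hg using h1
  refine ⟨s.image g, Finset.card_image_le, ?_, ?_⟩
  · intro x hx
    obtain ⟨y, hy, rfl⟩ := Finset.mem_image.1 hx
    exact hgK y hy
  · ext y
    constructor
    · rintro ⟨x, hx, rfl⟩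
      obtain ⟨y, hy, rfl⟩ := Finset.mem_image.1 (Finset.mem_coe.1 hx)
      rw [hg y hy]
      exact Finset.mem_coe.2 hy
    · intro hy
      have hy' := Finset.mem_coe.1 hy
      exact ⟨g y, Finset.mem_coe.2 (Finset.mem_image_of_mem g hy'), hg y hy'⟩

theorem lift_inj {G H : Type*} [Group G] [Group H] (f : G →* H) (hf : Function.Injective f)
    (K : Subgroup G) (s : Finset H) (hs : Subgroup.closure (s : Set H) = K.map f) :
    ∃ s' : Finset G, s'.card ≤ s.card ∧ Subgroup.closure (s' : Set G) = K := by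
  obtain ⟨s', h1, -, h3⟩ := lift_set f K s hs
  refine ⟨s', h1, ?_⟩
  apply Subgroup.map_injective hf
  rw [MonoidHom.map_closure, h3, hs]

theorem fg_map {G H : Type*} [Group G] [Group H] (f : G →* H) {K : Subgroup G} (hK : K.FG) :
    (K.map f).FG := by
  classical
  obtain ⟨t, ht⟩ := hK
  refine ⟨t.image f, ?_⟩
  rw [Finset.coe_image, ← MonoidHom.map_closure, ht]

end RankAux

open RankAux

theorem FR.of_surjective {G H : Type*} [Group G] [Group H] (f : G →* H)
    (hf : Function.Surjective f) (h : FR G) : FR H := by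
  classical
  obtain ⟨r, hr⟩ := h
  refine ⟨r, fun K hK => ?_⟩
  obtain ⟨t, ht⟩ := hK
  obtain ⟨g, hg⟩ := hf.hasRightInverse
  obtain ⟨s, hs1, hs2⟩ := hr (Subgroup.closure ((t.image g : Finset G) : Set G)) ⟨t.image g, rfl⟩
  refine ⟨s.image f, Finset.card_image_le.trans hs1, ?_⟩
  rw [Finset.coe_image, ← MonoidHom.map_closure, hs2, MonoidHom.map_closure, Finset.coe_image,
    Set.image_image]
  have : (fun x => f (g x)) '' (t : Set H) = (t : Set H) := by
    have h1 : (fun x => f (g x)) = id := funext hg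
    rw [h1, Set.image_id]
  rw [this, ht]

theorem FR.of_injective {G H : Type*} [Group G] [Group H] (f : G →* H)
    (hf : Function.Injective f) (h : FR H) : FR G := by
  obtain ⟨r, hr⟩ := h
  refine ⟨r, fun K hK => ?_⟩
  obtain ⟨s, hs1, hs2⟩ := hr (K.map f) (fg_map f hK)
  obtain ⟨s', h1, h2⟩ := lift_inj f hf K s hs2
  exact ⟨s', h1.trans hs1, h2⟩

theorem FR.subgroup {G : Type*} [Group G] (H : Subgroup G) (h : FR G) : FR H :=
  FR.of_injective H.subtype (Subgroup.subtype_injective H) h

theorem FR.of_ker_range {G H : Type*} [Group G] [Group H] (f : G →* H)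
    (hk : FR f.ker) (hr : FR f.range) : FR G := by
  classical
  obtain ⟨rN, hN⟩ := hk
  obtain ⟨rQ, hQ⟩ := hr
  refine ⟨rQ + rN, fun K hK => ?_⟩
  obtain ⟨s1, h1, h2⟩ := hQ (K.map f.rangeRestrict) (fg_map _ hK)
  obtain ⟨sQ, h3, h4, h5⟩ := lift_set f.rangeRestrict K s1 h2
  obtain ⟨t, ht⟩ := hK
  have htK : ∀ x ∈ t, x ∈ K := fun x hx => by
    rw [← ht]; exact Subgroup.subset_closure (Finset.mem_coe.2 hx)
  have hQK : Subgroup.closure (sQ : Set G) ≤ K := by
    rw [Subgroup.closure_le]
    intro x hx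
    exact h4 x (Finset.mem_coe.1 hx)
  have hw : ∀ x ∈ t, ∃ w ∈ Subgroup.closure (sQ : Set G), f w = f x := by
    intro x hx
    have h6 : f.rangeRestrict x ∈ K.map f.rangeRestrict :=
      Subgroup.mem_map_of_mem _ (htK x hx)
    rw [← h2, ← h5, ← MonoidHom.map_closure] at h6
    obtain ⟨w, hw1, hw2⟩ := Subgroup.mem_map.1 h6
    exact ⟨w, hw1, congrArg Subtype.val hw2⟩
  choose! w hwQ hwf using hw
  have hker : ∀ x ∈ t, (w x)⁻¹ * x ∈ f.ker := by
    intro x hx
    rw [MonoidHom.mem_ker, map_mul, map_inv, hwf x hx, inv_mul_cancel]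
  set T : Finset f.ker := t.attach.image (fun x => ⟨(w x.1)⁻¹ * x.1, hker x.1 x.2⟩) with hT
  obtain ⟨s2, h6, h7⟩ := hN (Subgroup.closure (T : Set f.ker)) ⟨T, rfl⟩
  have h8 : Subgroup.closure ((s2.image (Subtype.val : f.ker → G) : Finset G) : Set G) =
      (Subgroup.closure (T : Set f.ker)).map f.ker.subtype := by
    rw [← h7, MonoidHom.map_closure, Finset.coe_image]
    rfl
  refine ⟨sQ ∪ s2.image (Subtype.val : f.ker → G), ?_, le_antisymm ?_ ?_⟩
  · refine (Finset.card_union_le _ _).trans ?_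
    have := Finset.card_image_le (s := s2) (f := (Subtype.val : f.ker → G))
    omega
  · rw [Finset.coe_union, Subgroup.closure_union, sup_le_iff]
    refine ⟨hQK, ?_⟩
    rw [h8, MonoidHom.map_closure, Subgroup.closure_le]
    rintro y ⟨z, hz, rfl⟩
    rw [hT] at hz
    obtain ⟨x, -, rfl⟩ := Finset.mem_image.1 (Finset.mem_coe.1 hz)
    exact K.mul_mem (K.inv_mem (hQK (hwQ x.1 x.2))) (htK x.1 x.2)
  · rw [← ht, Subgroup.closure_le]
    intro x hx
    have hx' := Finset.mem_coe.1 hx
    rw [Finset.coe_union, Subgroup.closure_union]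
    have e : x = w x * ((w x)⁻¹ * x) := by group
    rw [SetLike.mem_coe, e]
    refine Subgroup.mul_mem_sup (hwQ x hx') ?_
    rw [h8]
    refine Subgroup.mem_map.2 ⟨⟨(w x)⁻¹ * x, hker x hx'⟩, ?_, rfl⟩
    apply Subgroup.subset_closure
    rw [hT]
    exact Finset.mem_coe.2 (Finset.mem_image.2 ⟨⟨x, hx'⟩, Finset.mem_attach _ _, rfl⟩)

theorem FR.of_finite {G : Type*} [Group G] [Finite G] : FR G := by
  classical
  refine ⟨Nat.card G, fun K _ => ?_⟩
  refine ⟨(Set.toFinite (K : Set G)).toFinset, ?_, ?_⟩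
  · have h1 := Set.ncard_eq_toFinset_card (K : Set G) (Set.toFinite _)
    rw [← h1]
    have h2 := Set.ncard_le_ncard (Set.subset_univ (K : Set G)) (Set.toFinite _)
    rwa [Set.ncard_univ] at h2
  · rw [Set.Finite.coe_toFinset, Subgroup.closure_eq]

theorem FR.of_finiteIndex {G : Type*} [Group G] (H : Subgroup G) [H.FiniteIndex]
    (h : FR H) : FR G := by
  have h1 : FR H.normalCore :=
    FR.of_injective (Subgroup.inclusion H.normalCore_le) (Subgroup.inclusion_injective _) h
  refine FR.of_ker_range (QuotientGroup.mk' H.normalCore) ?_ ?_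
  · rw [QuotientGroup.ker_mk']
    exact h1
  · exact FR.of_finite

theorem FR.prod {G H : Type*} [Group G] [Group H] (hG : FR G) (hH : FR H) : FR (G × H) := by
  refine FR.of_ker_range (MonoidHom.fst G H) ?_ (FR.subgroup _ hG)
  refine FR.of_injective ((MonoidHom.snd G H).comp (MonoidHom.fst G H).ker.subtype) ?_ hH
  rintro ⟨⟨a, b⟩, hx⟩ ⟨⟨c, d⟩, hy⟩ h
  have h1 : a = 1 := hx
  have h2 : c = 1 := hy
  have h3 : b = d := h
  apply Subtype.ext
  rw [Prod.mk.injEq]
  exact ⟨h1.trans h2.symm, h3⟩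

/-- the rank of a subgroup, in the form used in the problem. -/
theorem fr_iff {G : Type*} [Group G] (A : Subgroup G) :
    FR A ↔ ∃ r : ℕ, ∀ K : Subgroup G, K ≤ A → K.FG →
      ∃ s : Finset G, s.card ≤ r ∧ Subgroup.closure (s : Set G) = K := by
  classical
  constructor
  · rintro ⟨r, hr⟩
    refine ⟨r, fun K hKA hK => ?_⟩
    have hmap : (K.subgroupOf A).map A.subtype = K := Subgroup.map_subgroupOf_eq_of_le hKA
    have hfg : (K.subgroupOf A).FG := by
      obtain ⟨t, ht⟩ := hK
      rw [← hmap] at ht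
      obtain ⟨t', -, h2⟩ := lift_inj A.subtype (Subgroup.subtype_injective A) _ t ht
      exact ⟨t', h2⟩
    obtain ⟨s, h1, h2⟩ := hr _ hfg
    refine ⟨s.image A.subtype, Finset.card_image_le.trans h1, ?_⟩
    rw [Finset.coe_image, ← MonoidHom.map_closure, h2, hmap]
  · rintro ⟨r, hr⟩
    refine ⟨r, fun K hK => ?_⟩
    obtain ⟨s, h1, h2⟩ := hr (K.map A.subtype) (Subgroup.map_subtype_le K) (fg_map _ hK)
    obtain ⟨s', h3, h4⟩ := lift_inj A.subtype (Subgroup.subtype_injective A) K s h2
    exact ⟨s', h3.trans h1, h4⟩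

end P9700a
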