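import Mathlib
import Pool.Agent.Lib.P9700a.Defs
import Pool.Agent.Lib.P9700a.Rank

/-!
# Products of finite rank groups modulo an abelian normal subgroup with centralizer of finite index

`FR_of_cent`: `H = {(a, b) ∈ A × B : a b⁻¹ ∈ N}` (subgroup: preimage of the diagonal of `G ⧸ N`), `FR H`. `δ (a, b) = a b⁻¹ ∈ N` is onto `N`
(`n = a b`, take `(a, b⁻¹)`), `δ (h h') = (a δ(h') a⁻¹) δ(h)` for `h = (a, b)`. `H1 = {(a, b) ∈ H : a ∈ centralizer N}` has finite index in `H`, `δ` is a homomorphism on `H1` (`N` abelian);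
`N1 = δ(H1)`, `FR N1`. `H` is a finite union of cosets `h_i H1`, `δ (h_i h) = (a_i δ(h) a_i⁻¹) δ(h_i)`: so `N` is a finite union of cosets of the subgroups `a_i N1 a_i⁻¹ ≤ N`; by B.H. Neumann
(`Subgroup.exists_finiteIndex_of_leftCoset_cover`, applied to the group `N`) one of them has finite index in `N`; `FR.of_finiteIndex`.

`FR_of_quot_comm`: if moreover `N ≥ commutator G`, then `G ⧸ N` is abelian, `(a, b) ↦ a b N` is a surjective homomorphism `A × B → G ⧸ N`, so `FR (G ⧸ N)`, and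
`FR.of_ker_range (QuotientGroup.mk' N)` gives `FR G`.
-/

set_option autoImplicit false

namespace P9700a

namespace CoverAux

variable {G : Type*} [Group G] (A B N : Subgroup G) [N.Normal]

/-- the pairs `(a, b)` with `a` and `b` congruent modulo `N` -/
def HH : Subgroup (A × B) :=
  MonoidHom.eqLocus
    ((QuotientGroup.mk' N).comp (A.subtype.comp (MonoidHom.fst A B)))
    ((QuotientGroup.mk' N).comp (B.subtype.comp (MonoidHom.snd A B)))

theorem mem_HH (x : A × B) : x ∈ HH A B N ↔ (x.1 : G) * (x.2 : G)⁻¹ ∈ N := by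
  have h1 : x ∈ HH A B N ↔ ((x.1 : G) : G ⧸ N) = ((x.2 : G) : G ⧸ N) := Iff.rfl
  have h2 : ((x.1 : G) : G ⧸ N) = ((x.2 : G) : G ⧸ N) ↔
      (((x.1 : G) * (x.2 : G)⁻¹ : G) : G ⧸ N) = 1 := by
    rw [QuotientGroup.mk_mul, QuotientGroup.mk_inv, mul_inv_eq_one]
  rw [h1, h2, QuotientGroup.eq_one_iff]

/-- the difference map -/
def dl (h : HH A B N) : N := ⟨(h.1.1 : G) * (h.1.2 : G)⁻¹, (mem_HH A B N h.1).1 h.2⟩

theorem dl_coe (h : HH A B N) : ((dl A B N h : N) : G) = (h.1.1 : G) * (h.1.2 : G)⁻¹ := rfl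

theorem dl_mul (h h' : HH A B N) :
    ((dl A B N (h * h') : N) : G) = (h.1.1 : G) * (dl A B N h' : G) * (h.1.1 : G)⁻¹ * (dl A B N h : G) := by
  rw [dl_coe, dl_coe, dl_coe]
  change ((h.1.1 : G) * (h'.1.1 : G)) * ((h.1.2 : G) * (h'.1.2 : G))⁻¹ = _
  group

theorem dl_surj (hAB : ∀ g : G, ∃ a ∈ A, ∃ b ∈ B, g = a * b) (n : N) : ∃ h : HH A B N, dl A B N h = n := by
  obtain ⟨a, ha, b, hb, hab⟩ := hAB (n : G)
  have h1 : ((⟨a, ha⟩, ⟨b⁻¹, B.inv_mem hb⟩) : A × B) ∈ HH A B N := by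
    rw [mem_HH]
    change a * (b⁻¹)⁻¹ ∈ N
    rw [inv_inv, ← hab]
    exact n.2
  refine ⟨⟨_, h1⟩, Subtype.ext ?_⟩
  change a * (b⁻¹)⁻¹ = (n : G)
  rw [inv_inv, ← hab]

/-- the homomorphism to the group `G` given by the first component -/
def pr : HH A B N →* G := A.subtype.comp ((MonoidHom.fst A B).comp (HH A B N).subtype)

theorem pr_coe (h : HH A B N) : pr A B N h = (h.1.1 : G) := rfl

/-- the pairs whose first component centralizes `N` -/
def H1 : Subgroup (HH A B N) := (Subgroup.centralizer (N : Set G)).comap (pr A B N)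

variable {A B N}

theorem dl_mul_of_mem (hN : ∀ x ∈ N, ∀ y ∈ N, x * y = y * x) {h : HH A B N} (hh : h ∈ H1 A B N)
    (h' : HH A B N) : dl A B N (h * h') = dl A B N h * dl A B N h' := by
  apply Subtype.ext
  rw [dl_mul]
  have h1 : (h.1.1 : G) ∈ Subgroup.centralizer (N : Set G) := hh
  have h2 := Subgroup.mem_centralizer_iff.1 h1 _ (dl A B N h').2
  rw [← h2, mul_assoc ((dl A B N h' : N) : G), mul_inv_cancel, mul_one, Subgroup.coe_mul]
  exact hN _ (dl A B N h').2 _ (dl A B N h).2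

/-- the difference map is a homomorphism on `H1` -/
def dlH (hN : ∀ x ∈ N, ∀ y ∈ N, x * y = y * x) : H1 A B N →* N :=
  MonoidHom.mk' (fun h => dl A B N h.1) fun h h' => dl_mul_of_mem hN h.2 h'.1

end CoverAux

open CoverAux Pointwise in
theorem FR_of_cent {G : Type*} [Group G] (A B N : Subgroup G) [N.Normal] (hA : FR A) (hB : FR B)
    (hAB : ∀ g : G, ∃ a ∈ A, ∃ b ∈ B, g = a * b)
    (hN : ∀ x ∈ N, ∀ y ∈ N, x * y = y * x)
    (hC : (Subgroup.centralizer (N : Set G)).FiniteIndex) : FR N := by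
  classical
  have hH : FR (HH A B N) := FR.subgroup _ (FR.prod hA hB)
  have hH1 : FR (H1 A B N) := FR.subgroup _ hH
  have hfi : (H1 A B N).FiniteIndex := by
    refine ⟨?_⟩
    unfold H1
    rw [Subgroup.index_comap]
    exact (inferInstance :
      ((Subgroup.centralizer (N : Set G)).subgroupOf (pr A B N).range).FiniteIndex).index_ne_zero
  set N1 : Subgroup N := (dlH hN : H1 A B N →* N).range with hN1
  have hFN1 : FR N1 := FR.of_surjective (dlH hN : H1 A B N →* N).rangeRestrict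
    (MonoidHom.rangeRestrict_surjective _) hH1
  let Kq : (HH A B N ⧸ H1 A B N) → Subgroup N := fun q =>
    N1.map (MulAut.conjNormal (pr A B N q.out) : N ≃* N).toMonoidHom
  have hFK : ∀ q, FR (Kq q) := fun q =>
    FR.of_surjective ((MulAut.conjNormal (pr A B N q.out) : N ≃* N).toMonoidHom.subgroupMap N1)
      (MonoidHom.subgroupMap_surjective _ _) hFN1
  have hfin : Finite (HH A B N ⧸ H1 A B N) := Subgroup.finite_quotient_of_finiteIndex
  have hft : Fintype (HH A B N ⧸ H1 A B N) := Fintype.ofFinite _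
  have hcov : ⋃ q ∈ (Finset.univ : Finset (HH A B N ⧸ H1 A B N)), dl A B N q.out • (Kq q : Set N)
      = Set.univ := by
    rw [Set.eq_univ_iff_forall]
    intro n
    obtain ⟨h, rfl⟩ := dl_surj A B N hAB n
    simp only [Set.mem_iUnion]
    refine ⟨(h : HH A B N ⧸ H1 A B N), Finset.mem_univ _, ?_⟩
    set q : HH A B N ⧸ H1 A B N := (h : HH A B N ⧸ H1 A B N) with hq
    have h1 : q.out⁻¹ * h ∈ H1 A B N := by
      rw [← QuotientGroup.eq, hq]
      exact Quotient.out_eq' _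
    have h2 : h = q.out * (q.out⁻¹ * h) := by group
    rw [Set.mem_smul_set]
    refine ⟨MulAut.conjNormal (pr A B N q.out) (dl A B N (q.out⁻¹ * h)), ?_, ?_⟩
    · refine ⟨dl A B N (q.out⁻¹ * h), ⟨⟨_, h1⟩, rfl⟩, rfl⟩
    · apply Subtype.ext
      conv_rhs => rw [h2]
      rw [dl_mul, smul_eq_mul, Subgroup.coe_mul, MulAut.conjNormal_apply, pr_coe]
      refine hN _ (dl A B N q.out).2 _ ?_
      exact Subgroup.Normal.conj_mem inferInstance _ (dl A B N (q.out⁻¹ * h)).2 _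
  obtain ⟨q, _, hq⟩ := Subgroup.exists_finiteIndex_of_leftCoset_cover hcov
  have hq' := hq
  exact FR.of_finiteIndex (Kq q) (hFK q)

open scoped commutatorElement in
theorem FR_of_quot_comm {G : Type*} [Group G] (A B N : Subgroup G) [N.Normal] (hA : FR A)
    (hB : FR B) (hAB : ∀ g : G, ∃ a ∈ A, ∃ b ∈ B, g = a * b) (hcN : commutator G ≤ N)
    (hN : FR N) : FR G := by
  have hcomm : ∀ x y : G, (x : G ⧸ N) * (y : G ⧸ N) = (y : G ⧸ N) * (x : G ⧸ N) := by
    intro x y
    rw [← QuotientGroup.mk_mul, ← QuotientGroup.mk_mul, QuotientGroup.eq]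
    have h1 : (x * y)⁻¹ * (y * x) = ⁅y⁻¹, x⁻¹⁆ := by
      rw [commutatorElement_def]
      group
    rw [h1]
    exact hcN (Subgroup.commutator_mem_commutator (Subgroup.mem_top _) (Subgroup.mem_top _))
  let φ : A × B →* G ⧸ N := MonoidHom.mk' (fun x => ((x.1 : G) : G ⧸ N) * ((x.2 : G) : G ⧸ N)) (by
    intro x y
    change (((x.1 : G) * (y.1 : G) : G) : G ⧸ N) * (((x.2 : G) * (y.2 : G) : G) : G ⧸ N) = _
    rw [QuotientGroup.mk_mul, QuotientGroup.mk_mul, mul_assoc, ← mul_assoc ((y.1 : G) : G ⧸ N),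
      hcomm (y.1 : G) (x.2 : G), mul_assoc, ← mul_assoc, mul_assoc])
  have hφ : Function.Surjective φ := by
    intro z
    induction z using QuotientGroup.induction_on with
    | H g =>
      obtain ⟨a, ha, b, hb, rfl⟩ := hAB g
      exact ⟨(⟨a, ha⟩, ⟨b, hb⟩), rfl⟩
  have hQ : FR (G ⧸ N) := FR.of_surjective φ hφ (FR.prod hA hB)
  refine FR.of_ker_range (QuotientGroup.mk' N) ?_ (FR.subgroup _ hQ)
  rw [QuotientGroup.ker_mk']
  exact hN

end P9700a
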