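import Mathlib

/-!
# Pairwise coprime values of a rational polynomial

Let `F ∈ ℚ[X]`, `F(0) = 1`, `deg F ≥ 1`. Then for every `r` there are naturals `n 0, …, n (r-1)` at which `F` takes integer values of
absolute value `> 1` that are pairwise coprime.

Proof. Let `D ≥ 1` be a common denominator of the coefficients of `F`; `F(D X) = 1 + ∑_{k ≥ 1} c_k D^k X^k ∈ ℤ[X]`; so there is
`G ∈ ℤ[X]` with `G.coeff 0 = 1`, `G.map = F.comp (C D * X)`, nonconstant. Choose `t_i` recursively: `t_i` a natural multiple of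
`∏_{j<i} |G(t_j)|`, so large that `|G(t_i)| > 1` (a nonconstant polynomial takes the values `0, 1, -1` only finitely often, there are
infinitely many multiples since the product is nonzero). `G(t_i) ≡ 1 mod t_i` (`Polynomial.X_dvd_sub_C`, or `sub_dvd_eval_sub t_i 0 G`), so it is
coprime to all former `G(t_j)`. Put `n i = D * t_i`.
(Convenient: prove by induction on `r` the statement with `∃ t : Fin r → ℕ`, extending by `Fin.snoc` / `Fin.cons`.)
-/

set_option autoImplicit false

open Polynomial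

namespace P9700a

namespace NumAux

/-- Clearing denominators by scaling the variable. -/
theorem exists_int_scaling (F : ℚ[X]) (h0 : F.eval 0 = 1) :
    ∃ D : ℕ, 0 < D ∧ ∃ G : ℤ[X], G.eval 0 = 1 ∧
      G.map (Int.castRingHom ℚ) = F.comp (C (D : ℚ) * X) := by
  obtain ⟨b, hb⟩ := IsLocalization.exist_integer_multiples_of_finset (nonZeroDivisors ℤ)
    (F.coeffs)
  have hb0 : (b : ℤ) ≠ 0 := nonZeroDivisors.ne_zero b.2
  set D : ℕ := (b : ℤ).natAbs with hD
  have hDpos : 0 < D := Int.natAbs_pos.mpr hb0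
  have hDb : (b : ℤ) ∣ (D : ℤ) := by
    rw [hD, Int.dvd_natAbs]
  -- coefficients
  have hc : ∀ k : ℕ, ∃ z : ℤ, (z : ℚ) = F.coeff k * (D : ℚ) ^ k := by
    intro k
    by_cases hk : k = 0
    · subst hk
      refine ⟨1, ?_⟩
      rw [coeff_zero_eq_eval_zero, h0]; simp
    by_cases hF : F.coeff k = 0
    · exact ⟨0, by rw [hF]; simp⟩
    · have hmem : F.coeff k ∈ F.coeffs := coeff_mem_coeffs hF
      obtain ⟨z, hz⟩ := hb _ hmem
      obtain ⟨e, he⟩ := hDb
      refine ⟨z * e * D ^ (k - 1), ?_⟩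
      have hz' : (z : ℚ) = ((b : ℤ) : ℚ) * F.coeff k := by
        have := hz
        simpa [Algebra.smul_def] using this
      have hDq : (D : ℚ) = ((b : ℤ) : ℚ) * (e : ℚ) := by
        exact_mod_cast congrArg (fun t : ℤ => (t : ℚ)) he
      have hk' : (D : ℚ) ^ k = (D : ℚ) ^ (k - 1) * D := by
        rw [← pow_succ]; congr 1; omega
      push_cast
      rw [hk', hz', hDq]
      ring
  choose z hz using hc
  refine ⟨D, hDpos, ∑ k ∈ Finset.range (F.natDegree + 1), C (z k) * X ^ k, ?_, ?_⟩
  · have h1 : ((∑ k ∈ Finset.range (F.natDegree + 1), C (z k) * X ^ k : ℤ[X]).eval 0) = z 0 := by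
      rw [← coeff_zero_eq_eval_zero, finsetSum_coeff]
      rw [Finset.sum_eq_single 0]
      · simp
      · intro k _ hk
        simp [hk.symm]
      · intro h; simp at h
    rw [h1]
    have := hz 0
    rw [coeff_zero_eq_eval_zero, h0] at this
    simp at this
    exact_mod_cast this
  · rw [Polynomial.map_sum]
    conv_rhs => rw [F.as_sum_range_C_mul_X_pow]
    rw [Polynomial.sum_comp]
    refine Finset.sum_congr rfl fun k _ => ?_
    rw [Polynomial.map_mul, Polynomial.map_C, Polynomial.map_pow, map_X, mul_comp, C_comp,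
      pow_comp, X_comp, mul_pow, ← C_pow, ← mul_assoc, ← C_mul, ← hz k]
    rfl

/-- A nonconstant integer polynomial avoids `0, 1, -1` at some multiple of a positive number. -/
theorem exists_big (G : ℤ[X]) (hG : 0 < G.natDegree) (P : ℤ) (hP : P ≠ 0) :
    ∃ t : ℕ, P ∣ (t : ℤ) ∧ 1 < |G.eval (t : ℤ)| := by
  classical
  by_contra hcon
  push Not at hcon
  have hne : ∀ c : ℤ, G - C c ≠ 0 := by
    intro c h
    have : G = C c := sub_eq_zero.mp h
    rw [this] at hG
    simp at hG
  set S : Finset ℤ := (G - C 0).roots.toFinset ∪ ((G - C 1).roots.toFinset ∪ (G - C (-1)).roots.toFinset) with hS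
  have hmem : ∀ m : ℕ, ((P.natAbs * m : ℕ) : ℤ) ∈ S := by
    intro m
    have hd : P ∣ ((P.natAbs * m : ℕ) : ℤ) := by
      push_cast
      exact Dvd.dvd.mul_right (by simp) _
    have h := hcon _ hd
    have h3 : G.eval ((P.natAbs * m : ℕ) : ℤ) = 0 ∨ G.eval ((P.natAbs * m : ℕ) : ℤ) = 1 ∨
        G.eval ((P.natAbs * m : ℕ) : ℤ) = -1 := by
      rw [abs_le] at h
      omega
    rw [hS]
    simp only [Finset.mem_union, Multiset.mem_toFinset]
    rcases h3 with h3 | h3 | h3
    · left
      rw [mem_roots (hne 0)]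
      simp only [IsRoot.def, eval_sub, eval_C, h3]; norm_num
    · right; left
      rw [mem_roots (hne 1)]
      simp only [IsRoot.def, eval_sub, eval_C, h3]; norm_num
    · right; right
      rw [mem_roots (hne (-1))]
      simp only [IsRoot.def, eval_sub, eval_C, h3]; norm_num
  have hinj : Function.Injective (fun m : ℕ => ((P.natAbs * m : ℕ) : ℤ)) := by
    intro a b hab
    have h1 : P.natAbs * a = P.natAbs * b := by
      have h2 : ((P.natAbs * a : ℕ) : ℤ) = ((P.natAbs * b : ℕ) : ℤ) := hab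
      exact_mod_cast h2
    exact Nat.eq_of_mul_eq_mul_left (Int.natAbs_pos.mpr hP) h1
  have hinf : (Set.range (fun m : ℕ => ((P.natAbs * m : ℕ) : ℤ))).Infinite :=
    Set.infinite_range_of_injective hinj
  exact hinf (S.finite_toSet.subset (by rintro _ ⟨m, rfl⟩; exact hmem m))

/-- The recursive choice. -/
theorem exists_seq (G : ℤ[X]) (hG : 0 < G.natDegree) (h0 : G.eval 0 = 1) (r : ℕ) :
    ∃ t : Fin r → ℕ, (∀ i, 1 < |G.eval (t i : ℤ)|) ∧
      Pairwise (fun i j => IsCoprime (G.eval (t i : ℤ)) (G.eval (t j : ℤ))) := by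
  induction r with
  | zero => exact ⟨Fin.elim0, fun i => i.elim0, fun i => i.elim0⟩
  | succ r ih =>
    obtain ⟨t, ht1, ht2⟩ := ih
    have hP : (∏ j, G.eval (t j : ℤ)) ≠ 0 := by
      rw [Finset.prod_ne_zero_iff]
      intro j _ h
      have := ht1 j
      rw [h] at this
      simp at this
    obtain ⟨s, hs1, hs2⟩ := exists_big G hG _ hP
    have hcop : ∀ j : Fin r, IsCoprime (G.eval (s : ℤ)) (G.eval (t j : ℤ)) := by
      intro j
      have h1 : (s : ℤ) ∣ G.eval (s : ℤ) - 1 := by
        have := G.sub_dvd_eval_sub (s : ℤ) 0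
        rwa [h0, sub_zero] at this
      have h2 : G.eval (t j : ℤ) ∣ (s : ℤ) :=
        (Finset.dvd_prod_of_mem (fun j => G.eval (t j : ℤ)) (Finset.mem_univ j)).trans hs1
      obtain ⟨c, hc⟩ := h2.trans h1
      refine ⟨1, -c, ?_⟩
      linear_combination hc
    refine ⟨Fin.cons s t, ?_, ?_⟩
    · intro i
      refine Fin.cases ?_ (fun j => ?_) i
      · simpa using hs2
      · simpa using ht1 j
    · intro i j hij
      refine Fin.cases (fun hij => ?_) (fun i' => ?_) i hij
      · refine Fin.cases (fun hij => absurd rfl hij) (fun j' _ => ?_) j hij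
        simpa using hcop j'
      · intro hij
        refine Fin.cases (fun _ => ?_) (fun j' hij => ?_) j hij
        · simpa using (hcop i').symm
        · have : i' ≠ j' := fun h => hij (by rw [h])
          simpa using ht2 this

end NumAux

theorem exists_coprime_values (F : ℚ[X]) (h0 : F.eval 0 = 1) (hd : 0 < F.natDegree) (r : ℕ) :
    ∃ n : Fin r → ℕ, ∃ M : Fin r → ℤ, (∀ i, F.eval (n i : ℚ) = (M i : ℚ)) ∧
      (∀ i, 1 < |M i|) ∧ Pairwise (fun i j => IsCoprime (M i) (M j)) := by
  obtain ⟨D, hD, G, hG0, hGF⟩ := NumAux.exists_int_scaling F h0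
  have hGd : 0 < G.natDegree := by
    have h1 : (G.map (Int.castRingHom ℚ)).natDegree = G.natDegree :=
      natDegree_map_eq_of_injective (RingHom.injective_int _) G
    rw [← h1, hGF, natDegree_comp]
    have h2 : (C (D : ℚ) * X : ℚ[X]).natDegree = 1 := by
      rw [natDegree_C_mul (by exact_mod_cast hD.ne'), natDegree_X]
    rw [h2]
    omega
  obtain ⟨t, ht1, ht2⟩ := NumAux.exists_seq G hGd hG0 r
  refine ⟨fun i => D * t i, fun i => G.eval (t i : ℤ), ?_, ht1, ht2⟩
  intro i
  have h1 : ((G.eval (t i : ℤ) : ℤ) : ℚ) = (G.map (Int.castRingHom ℚ)).eval (t i : ℚ) := by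
    simp
  rw [h1, hGF, eval_comp]
  simp

/-- A product relation between pairwise coprime integers of absolute value `> 1` is trivial. -/
theorem rel_trivial {r : ℕ} (M : Fin r → ℤ) (h1 : ∀ i, 1 < |M i|)
    (hc : Pairwise (fun i j => IsCoprime (M i) (M j))) (a b : Fin r → ℕ)
    (hab : ∀ i, a i = 0 ∨ b i = 0) (h : ∏ i, M i ^ a i = ∏ i, M i ^ b i) :
    ∀ i, a i = 0 ∧ b i = 0 := by
  -- one-sided version
  have key : ∀ a b : Fin r → ℕ, (∀ i, a i = 0 ∨ b i = 0) →
      ∏ i, M i ^ a i = ∏ i, M i ^ b i → ∀ i, a i = 0 := by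
    intro a b hab h i
    by_contra hai
    have hbi : b i = 0 := (hab i).resolve_left hai
    have hdvd : M i ∣ ∏ j, M j ^ b j := by
      rw [← h]
      exact (dvd_pow_self _ hai).trans
        (Finset.dvd_prod_of_mem (fun j => M j ^ a j) (Finset.mem_univ i))
    have hcop : IsCoprime (M i) (∏ j, M j ^ b j) := by
      refine IsCoprime.prod_right fun j _ => ?_
      by_cases hij : i = j
      · subst hij
        rw [hbi, pow_zero]
        exact isCoprime_one_right
      · exact (hc hij).pow_right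
    have hu : IsUnit (M i) := hcop.isUnit_of_dvd' dvd_rfl hdvd
    have h2 := h1 i
    rw [Int.isUnit_iff_abs_eq.mp hu] at h2
    omega
  intro i
  exact ⟨key a b hab h i, key b a (fun i => (hab i).symm) h.symm i⟩

end P9700a
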