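import Mathlib
import Pool.Agent.Lib.P9700a.Defs
import Pool.Agent.Lib.P9700a.Rank

/-!
# Abelian groups of finite special rank

* `exists_rel`: let `r` be a rank bound, `x : Fin (r+1) → G`, `Z = closure (range x)` (f.g.), generated by `s`, `s.card ≤ r`.
  If `e ↦ ∏ x i ^ e i` (from `Fin (r+1) → ℤ`) were injective then every `g ∈ s` is the image of some `e_g`, and the
  `e_g` span `Fin (r+1) → ℤ` over `ℤ` (image of any `e` lies in `Z = closure s`): contradiction with
  `Module.finrank ℤ (Fin (r+1) → ℤ) = r + 1` (`finrank_span_le_card` / `finrank_span_finset_le_card`).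
* `span_fin_of_FR`: `exists_linearIndependent ℚ (U : Set W)` gives `b ⊆ U` independent with the same span; if `b` were infinite,
  `r+1` distinct elements of `b` satisfy an integer relation by `exists_rel`, contradiction.
* `FR_of_span_fin`: `r := finrank ℚ E`. A f.g. subgroup of `Multiplicative U` gives a f.g. `ℤ`-submodule `M` of `W`, torsion-free,
  so free with a basis `b : Fin n → M`; `b` is `ℚ`-independent in `W` (`LinearIndependent.iff_fractionRing ℤ ℚ`), contained in `E`;
  so `n ≤ finrank ℚ E`.
-/

set_option autoImplicit false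

namespace P9700a

namespace RankAbAux

theorem mem_span_of_mem_closure {G : Type*} [CommGroup G] (s : Finset G) (g : G)
    (hg : g ∈ Subgroup.closure (s : Set G)) :
    Additive.ofMul g ∈ Submodule.span ℤ (Additive.ofMul '' (s : Set G)) := by
  induction hg using Subgroup.closure_induction with
  | mem x hx => exact Submodule.subset_span ⟨x, hx, rfl⟩
  | one => exact Submodule.zero_mem _
  | mul x y _ _ hx hy => exact Submodule.add_mem _ hx hy
  | inv x _ hx => exact Submodule.neg_mem _ hx

end RankAbAux

theorem exists_rel {G : Type*} [CommGroup G] (h : FR G) :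
    ∃ r : ℕ, ∀ x : Fin (r + 1) → G, ∃ e : Fin (r + 1) → ℤ, e ≠ 0 ∧ ∏ i, x i ^ e i = 1 := by
  classical
  obtain ⟨r, hr⟩ := h
  refine ⟨r, fun x => ?_⟩
  by_contra hne
  push Not at hne
  obtain ⟨s, hs, hcl⟩ := hr (Subgroup.closure (Set.range x))
    ⟨Finset.univ.image x, by rw [Finset.coe_image, Finset.coe_univ, Set.image_univ]⟩
  have hli : LinearIndependent ℤ (fun i => Additive.ofMul (x i)) := by
    rw [Fintype.linearIndependent_iff]
    intro e he
    by_contra hcon
    push Not at hcon
    obtain ⟨i, hi⟩ := hcon
    apply hne e (fun h0 => hi (by rw [h0]; rfl))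
    have := congrArg Additive.toMul he
    simpa [toMul_sum] using this
  have hfin : Fintype (Additive.ofMul '' (s : Set G)) := Set.Finite.fintype (s.finite_toSet.image _)
  have := linearIndependent_le_span_aux' (R := ℤ) (fun i => Additive.ofMul (x i)) hli
    (Additive.ofMul '' (s : Set G)) (by
      rintro _ ⟨i, rfl⟩
      apply RankAbAux.mem_span_of_mem_closure
      rw [hcl]
      exact Subgroup.subset_closure ⟨i, rfl⟩)
  rw [Fintype.card_fin] at this
  have h2 : Fintype.card (Additive.ofMul '' (s : Set G)) ≤ s.card := by
    rw [← Nat.card_eq_fintype_card, Nat.card_coe_set_eq, ← Set.ncard_coe_finset s]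
    exact Set.ncard_image_le s.finite_toSet
  omega

theorem span_fin_of_FR {W : Type*} [AddCommGroup W] [Module ℚ W] (U : AddSubgroup W)
    (h : FR (Multiplicative U)) : FiniteDimensional ℚ (Submodule.span ℚ (U : Set W)) := by
  obtain ⟨r, hr⟩ := exists_rel h
  obtain ⟨b, hbU, hbs, hbi⟩ := exists_linearIndependent ℚ (U : Set W)
  by_cases hb : b.Finite
  · rw [← hbs]
    exact FiniteDimensional.span_of_finite ℚ hb
  · exfalso
    have : Infinite b := Set.infinite_coe_iff.mpr hb
    let em : Fin (r + 1) ↪ b := ⟨fun i => Infinite.natEmbedding b i.val, fun i j hij =>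
      Fin.ext ((Infinite.natEmbedding b).injective hij)⟩
    obtain ⟨e, he0, he⟩ := hr (fun i => Multiplicative.ofAdd (⟨(em i : W), hbU (em i).2⟩ : U))
    apply he0
    have h1 : ∑ i, (e i : ℚ) • ((em i : b) : W) = 0 := by
      have := congrArg (fun z : Multiplicative U => ((Multiplicative.toAdd z : U) : W)) he
      simp only [toAdd_prod, toAdd_zpow, toAdd_ofAdd, toAdd_one] at this
      rw [AddSubgroup.coe_zero, AddSubgroup.val_finsetSum] at this
      rw [← this]
      refine Finset.sum_congr rfl fun i _ => ?_
      rw [AddSubgroup.coe_zsmul, Int.cast_smul_eq_zsmul]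
    have h2 := Fintype.linearIndependent_iff.mp (hbi.comp em em.injective) (fun i => (e i : ℚ)) h1
    funext i
    exact_mod_cast h2 i

theorem FR_of_span_fin {W : Type*} [AddCommGroup W] [Module ℚ W] (U : AddSubgroup W)
    (E : Submodule ℚ W) [FiniteDimensional ℚ E] (hU : ∀ w ∈ U, w ∈ E) :
    FR (Multiplicative U) := by
  classical
  refine ⟨Module.finrank ℚ E, fun K hK => ?_⟩
  -- the injection into `W`
  let g : Additive K →+ W :=
    { toFun := fun k => ((Multiplicative.toAdd ((Additive.toMul k : K) : Multiplicative U) : U) : W)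
      map_zero' := rfl
      map_add' := fun _ _ => rfl }
  have hg : Function.Injective g := by
    intro a b hab
    have h1 : (Multiplicative.toAdd ((Additive.toMul a : K) : Multiplicative U) : U) =
        (Multiplicative.toAdd ((Additive.toMul b : K) : Multiplicative U) : U) := Subtype.ext hab
    have h2 : ((Additive.toMul a : K) : Multiplicative U) = ((Additive.toMul b : K) : Multiplicative U) := h1
    have h3 : (Additive.toMul a : K) = (Additive.toMul b : K) := Subtype.ext h2
    exact h3
  have hgl : Function.Injective g.toIntLinearMap := hg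
  have : Group.FG K := (Group.fg_iff_subgroup_fg K).mpr hK
  have : AddGroup.FG (Additive K) := GroupFG.iff_add_fg.mp inferInstance
  have : Module.Finite ℤ (Additive K) := Module.Finite.iff_addGroup_fg.mpr inferInstance
  have : Module.IsTorsionFree ℤ W := Module.IsTorsionFree.trans_faithfulSMul ℤ ℚ W
  have : Module.IsTorsionFree ℤ (Additive K) := by
    exact hgl.moduleIsTorsionFree g.toIntLinearMap (fun _ _ => map_smul g.toIntLinearMap _ _)
  let β := Module.Free.chooseBasis ℤ (Additive K)
  have hli : LinearIndependent ℤ (fun i => g (β i)) := by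
    have := β.linearIndependent.map' g.toIntLinearMap (LinearMap.ker_eq_bot.mpr hgl)
    exact this
  have hliQ : LinearIndependent ℚ (fun i => g (β i)) := (LinearIndependent.iff_fractionRing ℤ ℚ).mp hli
  have hE : ∀ k, g k ∈ E := fun k => hU _ (Multiplicative.toAdd ((Additive.toMul k : K) : Multiplicative U) : U).2
  have hliE : LinearIndependent ℚ (fun i => (⟨g (β i), hE _⟩ : E)) := by
    apply LinearIndependent.of_comp E.subtype
    exact hliQ
  have hcard := hliE.fintype_card_le_finrank
  refine ⟨Finset.univ.image (fun i => ((Additive.toMul (β i) : K) : Multiplicative U)), ?_, ?_⟩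
  · exact Finset.card_image_le.trans hcard
  · apply le_antisymm
    · rw [Subgroup.closure_le]
      intro x hx
      rw [Finset.coe_image] at hx
      obtain ⟨i, _, rfl⟩ := hx
      exact (Additive.toMul (β i) : K).2
    · intro k hk
      have h1 := β.sum_repr (Additive.ofMul ⟨k, hk⟩)
      have h2 := congrArg (fun z : Additive K => ((Additive.toMul z : K) : Multiplicative U)) h1
      simp only [toMul_sum, toMul_zsmul, toMul_ofMul] at h2
      rw [← h2, Subgroup.val_finsetProd]
      refine Subgroup.prod_mem _ fun i _ => ?_
      rw [Subgroup.coe_zpow]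
      refine Subgroup.zpow_mem _ (Subgroup.subset_closure ?_) _
      rw [Finset.coe_image]
      exact ⟨i, by simp, rfl⟩

end P9700a
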