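import Mathlib

/-!
# Specialisation and norm

Let `K` be a field of characteristic `0`, `Q ∈ K[X]` nonconstant with `Q(0) = 1`. There are a `ℚ`-subalgebra `R` of `K` containing all
`Q(n)`, a multiplicative map `N : R →* ℚ` and `F ∈ ℚ[X]` nonconstant with `F(0) = 1` and `N(Q(n)) = F(n)` for all naturals `n`.

Proof. `R` = `Algebra.adjoin ℚ` of the coefficients of `Q` and of the inverse of the leading coefficient (f.g. `ℚ`-algebra).
`m` a maximal ideal of `R` (`Ideal.exists_maximal`), `L = R ⧸ m` (field, `Ideal.Quotient.field m`), finite over `ℚ`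
by `finite_of_finite_type_of_isJacobsonRing ℚ L` (Mathlib.RingTheory.Jacobson.Ring). `N x = Algebra.norm ℚ (mk x)`.
`Qbar ∈ L[X]` the image of `Q`: same degree `m ≥ 1` as the leading coefficient is a unit of `R`; `Qbar(0) = 1`.
With a basis `b` of `L / ℚ` put `F = det (∑_k X^k • C (Algebra.leftMulMatrix b (Qbar.coeff k)))` in `ℚ[X]`; `F(n) = det (∑_k n^k leftMulMatrix b q_k) =
det (leftMulMatrix b (Qbar(n))) = Algebra.norm ℚ (Qbar(n))` (`RingHom.map_det`, `Algebra.norm_eq_matrix_det`).
`F` is nonconstant: over `E = AlgebraicClosure ℚ` (or `ℂ`) `F(n) = ∏_{σ : L →ₐ[ℚ] E} (Qbar.map σ)(n)` for all `n ∈ ℕ` (`Algebra.norm_eq_prod_embeddings`), so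
`F.map = ∏ σ, Qbar.map σ` as polynomials (infinitely many values: `Polynomial.eq_of_infinite_eval_eq`); the degree of the right-hand side is
`[L:ℚ] · deg Q ≥ 1` (the set of embeddings is nonempty).
(Alternative to the determinant: `F` by Lagrange interpolation, or any polynomial with rational coefficients with these values.)
-/

set_option autoImplicit false

open Polynomial

namespace P9700a

namespace SpecAux

/-- the polynomial matrix of multiplication by `q`. -/
theorem exists_F (L : Type*) [Field L] [Algebra ℚ L] [FiniteDimensional ℚ L] (q : L[X]) :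
    ∃ F : ℚ[X], ∀ n : ℕ, Algebra.norm ℚ (q.eval (n : L)) = F.eval (n : ℚ) := by
  classical
  let b := Module.finBasis ℚ L
  let M : Matrix (Fin (Module.finrank ℚ L)) (Fin (Module.finrank ℚ L)) ℚ[X] := fun i j =>
    ∑ k ∈ Finset.range (q.natDegree + 1), C ((Algebra.leftMulMatrix b (q.coeff k)) i j) * X ^ k
  refine ⟨M.det, fun n => ?_⟩
  rw [Algebra.norm_eq_matrix_det b]
  have h1 : M.det.eval (n : ℚ) = ((Polynomial.evalRingHom (n : ℚ)).mapMatrix M).det := by
    rw [← RingHom.map_det]; rfl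
  rw [h1]
  congr 1
  ext i j
  have h2 : q.eval (n : L) = ∑ k ∈ Finset.range (q.natDegree + 1), ((n : ℚ) ^ k) • q.coeff k := by
    rw [Polynomial.eval_eq_sum_range]
    refine Finset.sum_congr rfl fun k _ => ?_
    rw [Algebra.smul_def, map_pow, map_natCast, mul_comm]
  rw [h2, map_sum, Matrix.sum_apply]
  simp only [RingHom.mapMatrix_apply, Matrix.map_apply, M, coe_evalRingHom, eval_finsetSum,
    eval_mul, eval_C, eval_pow, eval_X, map_smul, Matrix.smul_apply, smul_eq_mul]
  refine Finset.sum_congr rfl fun k _ => ?_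
  ring

end SpecAux

/-- the number field part: for a number field `L` and a nonconstant `q ∈ L[X]` with `q(0) = 1` the norms of the values at the
naturals are the values of a nonconstant rational polynomial with constant term `1`. -/
theorem norm_poly (L : Type*) [Field L] [Algebra ℚ L] [FiniteDimensional ℚ L] (q : L[X])
    (h0 : q.eval 0 = 1) (hd : 0 < q.natDegree) :
    ∃ F : ℚ[X], F.eval 0 = 1 ∧ 0 < F.natDegree ∧
      ∀ n : ℕ, Algebra.norm ℚ (q.eval (n : L)) = F.eval (n : ℚ) := by
  obtain ⟨F, hF⟩ := SpecAux.exists_F L q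
  have hF0 : F.eval 0 = 1 := by
    have := hF 0
    simp only [Nat.cast_zero, h0, map_one] at this
    exact this.symm
  refine ⟨F, hF0, ?_, hF⟩
  by_contra hcon
  have hdeg : F.natDegree = 0 := by omega
  have hFC : F = C (F.coeff 0) := Polynomial.eq_C_of_natDegree_eq_zero hdeg
  have hF1 : F = 1 := by
    rw [hFC, Polynomial.eval_C] at hF0
    rw [hFC, hF0, C_1]
  have hN : ∀ n : ℕ, Algebra.norm ℚ (q.eval (n : L)) = 1 := by
    intro n; rw [hF n, hF1, Polynomial.eval_one]
  let E := AlgebraicClosure ℚ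
  have hprod : (∏ σ : L →ₐ[ℚ] E, q.map (σ : L →+* E)) = (1 : E[X]) := by
    refine Polynomial.eq_of_infinite_eval_eq _ _ ?_
    have hsub : Set.range (fun n : ℕ => (n : E)) ⊆
        {x : E | (∏ σ : L →ₐ[ℚ] E, q.map (σ : L →+* E)).eval x = (1 : E[X]).eval x} := by
      rintro _ ⟨n, rfl⟩
      show (∏ σ : L →ₐ[ℚ] E, q.map (σ : L →+* E)).eval (n : E) = (1 : E[X]).eval (n : E)
      rw [Polynomial.eval_prod, Polynomial.eval_one]
      have := Algebra.norm_eq_prod_embeddings ℚ E (q.eval (n : L))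
      rw [hN n, map_one] at this
      rw [this]
      refine Finset.prod_congr rfl fun σ _ => ?_
      have h3 : (n : E) = (σ : L →+* E) (n : L) := by simp
      rw [h3, Polynomial.eval_map, Polynomial.eval₂_at_apply]
      rfl
    exact (Set.infinite_range_of_injective Nat.cast_injective).mono hsub
  have hdegp : (∏ σ : L →ₐ[ℚ] E, q.map (σ : L →+* E)).natDegree =
      ∑ σ : L →ₐ[ℚ] E, q.natDegree := by
    rw [Polynomial.natDegree_prod]
    · refine Finset.sum_congr rfl fun σ _ => ?_
      exact Polynomial.natDegree_map _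
    · intro σ _
      rw [Ne, Polynomial.map_eq_zero]
      rintro rfl
      simp at hd
  rw [hprod, Polynomial.natDegree_one] at hdegp
  have hne : Nonempty (L →ₐ[ℚ] E) := ⟨IsAlgClosed.lift⟩
  obtain ⟨σ0⟩ := hne
  have := Finset.single_le_sum (f := fun _ : L →ₐ[ℚ] E => q.natDegree)
    (fun _ _ => Nat.zero_le _) (Finset.mem_univ σ0)
  omega

namespace SpecAux

/-- a finitely generated nontrivial commutative `ℚ`-algebra has a homomorphism to a number field. -/
theorem exists_hom.{u} (A : Type u) [CommRing A] [Nontrivial A] [Algebra ℚ A] [Algebra.FiniteType ℚ A] :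
    ∃ (L : Type u) (_ : Field L) (_ : Algebra ℚ L) (_ : FiniteDimensional ℚ L),
      Nonempty (A →ₐ[ℚ] L) := by
  obtain ⟨m, hm⟩ := Ideal.exists_maximal A
  letI : Field (A ⧸ m) := Ideal.Quotient.field m
  have : Algebra.FiniteType ℚ (A ⧸ m) :=
    Algebra.FiniteType.of_surjective (Ideal.Quotient.mkₐ ℚ m) (Ideal.Quotient.mkₐ_surjective ℚ m)
  have : Module.Finite ℚ (A ⧸ m) := finite_of_finite_type_of_isJacobsonRing ℚ (A ⧸ m)
  exact ⟨A ⧸ m, inferInstance, inferInstance, inferInstance, ⟨Ideal.Quotient.mkₐ ℚ m⟩⟩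

end SpecAux

theorem exists_norm {K : Type*} [Field K] [CharZero K] (Q : K[X]) (h0 : Q.eval 0 = 1)
    (hd : 0 < Q.natDegree) :
    ∃ (R : Subring K) (N : R →* ℚ) (F : ℚ[X]), F.eval 0 = 1 ∧ 0 < F.natDegree ∧
      ∀ n : ℕ, ∃ x : R, (x : K) = Q.eval (n : K) ∧ N x = F.eval (n : ℚ) := by
  classical
  let s : Finset K := insert (Q.leadingCoeff)⁻¹ Q.coeffs
  let A : Subalgebra ℚ K := Algebra.adjoin ℚ (s : Set K)
  have : Algebra.FiniteType ℚ A := (Subalgebra.fg_iff_finiteType A).1 ⟨s, rfl⟩
  obtain ⟨L, hL1, hL2, hL3, ⟨φ⟩⟩ := SpecAux.exists_hom A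
  have hQ0 : Q ≠ 0 := by rintro rfl; simp at hd
  have hcoef : ∀ n, Q.coeff n ∈ A := by
    intro n
    by_cases hn : Q.coeff n = 0
    · rw [hn]; exact A.zero_mem
    · refine Algebra.subset_adjoin ?_
      simp only [s, Finset.coe_insert, Set.mem_insert_iff, Finset.mem_coe]
      right
      exact Polynomial.coeff_mem_coeffs hn
  have hinv : (Q.leadingCoeff)⁻¹ ∈ A := by
    refine Algebra.subset_adjoin ?_
    simp only [s, Finset.coe_insert, Set.mem_insert_iff, Finset.mem_coe]
    left; trivial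
  have hlift : Q ∈ Polynomial.lifts (A.val : A →+* K) := by
    rw [Polynomial.lifts_iff_coeff_lifts]
    intro n
    exact ⟨⟨Q.coeff n, hcoef n⟩, rfl⟩
  obtain ⟨Q', hQ'⟩ := (Polynomial.mem_lifts _).1 hlift
  have hinj : Function.Injective (A.val : A →+* K) := Subtype.val_injective
  have hdeg' : Q'.natDegree = Q.natDegree := by
    rw [← hQ', Polynomial.natDegree_map_eq_of_injective hinj]
  have hlc : (A.val : A →+* K) Q'.leadingCoeff = Q.leadingCoeff := by
    rw [← hQ', Polynomial.leadingCoeff_map_of_injective hinj]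
  have hunit : φ Q'.leadingCoeff ≠ 0 := by
    intro h
    have h1 : Q'.leadingCoeff * ⟨(Q.leadingCoeff)⁻¹, hinv⟩ = (1 : A) := by
      apply hinj
      rw [map_mul, hlc, map_one]
      exact mul_inv_cancel₀ (Polynomial.leadingCoeff_ne_zero.2 hQ0)
    have h2 := congrArg φ h1
    rw [map_mul, h, zero_mul, map_one] at h2
    exact zero_ne_one h2
  have hval : ∀ n : ℕ, ((Q'.eval (n : A) : A) : K) = Q.eval (n : K) := by
    intro n
    have : (A.val : A →+* K) (Q'.eval (n : A)) = (Q'.map (A.val : A →+* K)).eval ((n : K)) := by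
      rw [Polynomial.eval_map]
      have h3 : (n : K) = (A.val : A →+* K) (n : A) := by simp
      rw [h3, Polynomial.eval₂_at_apply]
    rw [hQ'] at this
    exact this
  have hval' : ∀ n : ℕ, (Q'.map (φ : A →+* L)).eval (n : L) = φ (Q'.eval (n : A)) := by
    intro n
    have h3 : (n : L) = (φ : A →+* L) (n : A) := by simp
    rw [Polynomial.eval_map, h3, Polynomial.eval₂_at_apply]
    rfl
  have hq0 : (Q'.map (φ : A →+* L)).eval 0 = 1 := by
    have h4 := hval' 0
    have h5 := hval 0
    rw [Nat.cast_zero] at h4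
    rw [h4]
    rw [Nat.cast_zero (R := K), h0] at h5
    have h6 : Q'.eval ((0 : ℕ) : A) = 1 := Subtype.ext h5
    rw [h6, map_one]
  have hqd : 0 < (Q'.map (φ : A →+* L)).natDegree := by
    have h7 : (Q'.map (φ : A →+* L)).natDegree = Q'.natDegree :=
      Polynomial.natDegree_map_of_leadingCoeff_ne_zero (φ : A →+* L) hunit
    rw [h7, hdeg']
    exact hd
  obtain ⟨F, hF0, hFd, hF⟩ := norm_poly L (Q'.map (φ : A →+* L)) hq0 hqd
  refine ⟨A.toSubring, ((Algebra.norm ℚ : L →* ℚ)).comp ((φ : A →+* L) : A →* L), F, hF0, hFd, fun n => ?_⟩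
  refine ⟨Q'.eval (n : A), hval n, ?_⟩
  rw [← hF n, hval' n]
  rfl

end P9700a
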