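import Mathlib
import Pool.Agent.Lib.P9700a.Defs
import Pool.Agent.Lib.P9700a.Rank
import Pool.Agent.Lib.P9700a.RankAb
import Pool.Agent.Lib.P9700a.Num
import Pool.Agent.Lib.P9700a.Spec

/-!
# Lemma P: a polynomial whose values at the naturals lie in a coset of a multiplicative group of finite rank is constant

Proof. Suppose `P` is nonconstant. `P(0) ≠ 0`; `Q = C (P(0))⁻¹ * P`, `Q(0) = 1`, and `Q(n) ∈ T` (as an element of `Kˣ`) for all `n`
(`cT / cT = T`). `exists_norm Q` gives `R, N, F`; `r` from `exists_rel` for `T`; `exists_coprime_values F (r+1)` gives `n i`, `M i`.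
`x i = Q(n i) ∈ T`; `exists_rel` gives `e ≠ 0` with `∏ x i ^ e i = 1` in `T`; so `∏ (x i)^(e i)⁺ = ∏ (x i)^(e i)⁻` in `R` (natural exponents
`(e i).toNat`, `(-e i).toNat`), apply `N`: `∏ M i ^ (e i).toNat = ∏ M i ^ (-e i).toNat`; `rel_trivial` gives `e = 0`.
-/

set_option autoImplicit false

open Polynomial

namespace P9700a

theorem poly_const {K : Type*} [Field K] [CharZero K] (T : Subgroup Kˣ) (hT : FR T) (c : K)
    (P : K[X]) (h : ∀ n : ℕ, ∃ t ∈ T, P.eval (n : K) = c * ((t : Kˣ) : K)) (hc : c ≠ 0) :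
    P.natDegree = 0 := by
  by_contra hdeg
  have hpos : 0 < P.natDegree := Nat.pos_of_ne_zero hdeg
  choose t htT ht using h
  have h0 : P.eval 0 = c * ((t 0 : Kˣ) : K) := by
    have := ht 0
    rwa [Nat.cast_zero] at this
  have hP0 : P.eval 0 ≠ 0 := by
    rw [h0]
    exact mul_ne_zero hc (Units.ne_zero _)
  set Q : K[X] := C (P.eval 0)⁻¹ * P with hQ
  have hQ0 : Q.eval 0 = 1 := by
    rw [hQ, eval_mul, eval_C, inv_mul_cancel₀ hP0]
  have hQd : 0 < Q.natDegree := by
    rw [hQ, natDegree_C_mul (inv_ne_zero hP0)]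
    exact hpos
  obtain ⟨R, N, F, hF0, hFd, hN⟩ := exists_norm Q hQ0 hQd
  choose y hy hNy using hN
  obtain ⟨r, hr⟩ := exists_rel (G := T) hT
  obtain ⟨n, M, hM, hM1, hMc⟩ := exists_coprime_values F hF0 hFd (r + 1)
  let x : Fin (r + 1) → T := fun i => ⟨t (n i) * (t 0)⁻¹, T.mul_mem (htT _) (T.inv_mem (htT 0))⟩
  have hx : ∀ i, (((x i : T) : Kˣ) : K) = Q.eval (n i : K) := by
    intro i
    show ((t (n i) * (t 0)⁻¹ : Kˣ) : K) = _
    rw [hQ, eval_mul, eval_C, ht (n i), h0, Units.val_mul, Units.val_inv_eq_inv_val, mul_inv]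
    have := Units.ne_zero (t 0)
    field_simp
  obtain ⟨e, he, hprod⟩ := hr x
  have h1 : ∏ i, x i ^ (e i).toNat = ∏ i, x i ^ (-e i).toNat := by
    have h2 : (∏ i, x i ^ (e i).toNat) / (∏ i, x i ^ (-e i).toNat) = 1 := by
      rw [← Finset.prod_div_distrib, ← hprod]
      refine Finset.prod_congr rfl fun i _ => ?_
      rw [← zpow_natCast, ← zpow_natCast, div_eq_mul_inv, ← zpow_sub]
      congr 1
      have := Int.toNat_sub_toNat_neg (e i)
      exact this
    exact div_eq_one.1 h2
  have h3 : ∏ i, y (n i) ^ (e i).toNat = ∏ i, y (n i) ^ (-e i).toNat := by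
    have h4 : ∀ k : Fin (r + 1) → ℕ, (((∏ i, y (n i) ^ k i : R)) : K) =
        (((∏ i, x i ^ k i : T) : Kˣ) : K) := by
      intro k
      have e1 : (((∏ i, y (n i) ^ k i : R)) : K) = ∏ i, ((y (n i) : R) : K) ^ k i := by
        rw [← Subring.coe_subtype, map_prod]
        refine Finset.prod_congr rfl fun i _ => ?_
        rw [map_pow]
      have e2 : (((∏ i, x i ^ k i : T) : Kˣ) : K) = ∏ i, (((x i : T) : Kˣ) : K) ^ k i := by
        rw [← Subgroup.coe_subtype, map_prod, ← Units.coeHom_apply, map_prod]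
        refine Finset.prod_congr rfl fun i _ => ?_
        rw [map_pow, map_pow]
        rfl
      rw [e1, e2]
      refine Finset.prod_congr rfl fun i _ => ?_
      rw [hx, hy]
    apply Subtype.ext
    rw [h4, h4, h1]
  have h5 : ∏ i, M i ^ (e i).toNat = ∏ i, M i ^ (-e i).toNat := by
    have h6 := congrArg N h3
    rw [map_prod, map_prod] at h6
    simp only [map_pow, hNy, hM] at h6
    exact_mod_cast h6
  have h7 := rel_trivial M hM1 hMc (fun i => (e i).toNat) (fun i => (-e i).toNat) (fun i => by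
    rcases le_total 0 (e i) with h | h
    · right
      show (-e i).toNat = 0
      omega
    · left
      show (e i).toNat = 0
      omega) h5
  apply he
  funext i
  have h8 := h7 i
  have h9 : (e i).toNat = 0 := h8.1
  have h10 : (-e i).toNat = 0 := h8.2
  show e i = 0
  omega

/-- For an endomorphism `u` with `u - 1` nilpotent and a linear functional, `n ↦ f (u ^ n v)` is a polynomial. -/
theorem exists_poly_of_unipotent {K V : Type*} [Field K] [CharZero K] [AddCommGroup V] [Module K V]
    (u : Module.End K V) (hu : IsNilpotent (u - 1)) (f : V →ₗ[K] K) (v : V) :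
    ∃ P : K[X], ∀ n : ℕ, P.eval (n : K) = f ((u ^ n) v) := by
  -- `u ^ n = ∑_{k < d} (n.choose k) (u - 1)^k`, `n.choose k` is the value at `n` of `(descPochhammer K k) / k!`
  obtain ⟨d, hd⟩ := hu
  set w : Module.End K V := u - 1 with hw
  have huw : u = w + 1 := by rw [hw, sub_add_cancel]
  refine ⟨∑ k ∈ Finset.range d, C (f ((w ^ k) v) / (k.factorial : K)) * descPochhammer K k,
    fun n => ?_⟩
  rw [eval_finsetSum]
  have h1 : f ((u ^ n) v) = ∑ k ∈ Finset.range (n + 1), (n.choose k : K) * f ((w ^ k) v) := by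
    rw [huw, (Commute.one_right w).add_pow n, LinearMap.sum_apply, map_sum]
    refine Finset.sum_congr rfl fun k _ => ?_
    rw [one_pow, mul_one]
    have h2 : (w ^ k * ((n.choose k : ℕ) : Module.End K V)) v = (n.choose k : K) • (w ^ k) v := by
      rw [← nsmul_eq_mul', LinearMap.smul_apply, Nat.cast_smul_eq_nsmul]
    rw [h2, map_smul, smul_eq_mul]
  have h3 : ∀ k, (C (f ((w ^ k) v) / (k.factorial : K)) * descPochhammer K k).eval (n : K) =
      (n.choose k : K) * f ((w ^ k) v) := by
    intro k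
    rw [eval_mul, eval_C, descPochhammer_eval_eq_descFactorial,
      Nat.descFactorial_eq_factorial_mul_choose]
    have : (k.factorial : K) ≠ 0 := by exact_mod_cast k.factorial_ne_zero
    push_cast
    field_simp
  rw [h1, Finset.sum_congr rfl fun k _ => h3 k]
  have e1 : ∑ k ∈ Finset.range d, (n.choose k : K) * f ((w ^ k) v) =
      ∑ k ∈ Finset.range (d + (n + 1)), (n.choose k : K) * f ((w ^ k) v) := by
    refine Finset.sum_subset (Finset.range_mono (by omega)) fun k _ hk => ?_
    rw [Finset.mem_range, not_lt] at hk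
    rw [pow_eq_zero_of_le hk hd, LinearMap.zero_apply, map_zero, mul_zero]
  have e2 : ∑ k ∈ Finset.range (n + 1), (n.choose k : K) * f ((w ^ k) v) =
      ∑ k ∈ Finset.range (d + (n + 1)), (n.choose k : K) * f ((w ^ k) v) := by
    refine Finset.sum_subset (Finset.range_mono (by omega)) fun k _ hk => ?_
    rw [Finset.mem_range, not_lt] at hk
    rw [Nat.choose_eq_zero_of_lt (by omega), Nat.cast_zero, zero_mul]
  rw [e1, e2]

end P9700a
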