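import Mathlib
import Pool.Agent.Lib.P9700a.Defs
import Pool.Agent.Lib.P9700a.Rank
import Pool.Agent.Lib.P9700a.RankAb
import Pool.Agent.Lib.P9700a.Poly

/-!
# Crossed homomorphisms with triangular action and additive image have an image of finite rank

`cross_one` (scalar action). `H0 = χ.ker`; on `H0` `δ` is a homomorphism to `(W, +)`; `D = δ(H0)` an additive subgroup, `FR (Multiplicative D)` (`FR.subgroup`, `FR.of_surjective`), so
`span ℚ D` is finite-dimensional (`span_fin_of_FR`; `W` is a `ℚ`-module by restriction of scalars, `Module.compHom W (algebraMap ℚ K)`, or `DivisionRing.toRatAlgebra`/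
`Algebra ℚ K` of characteristic zero). `χ(h) D ⊆ D`: `δ(h k h⁻¹) = χ(h) δ(k)` for `k ∈ H0` (`0 = δ(1) = χ(h) δ(h⁻¹) + δ(h)`).
If `χ = 1`: `U = D`. Otherwise fix `h0` with `χ(h0) ≠ 1`. For `h : H`: `h h0 = [h,h0] h0 h`, `[h,h0] ∈ H0`, so `δ(h h0) = δ(h0 h) + d`, `d ∈ D`:
`(1 - χ(h0)) δ(h) = (1 - χ(h)) δ(h0) + d`, i.e. `δ(h) = (χ(h) - 1) c + (1 - χ(h0))⁻¹ d`, `c = (χ(h0) - 1)⁻¹ δ(h0)`.
 * some `d0 ∈ D`, `d0 ≠ 0`: `χ(h) d0 ∈ D` for all `h`, `t ↦ t d0` is `ℚ`-linear injective `K → W`, so `span ℚ (range χ)` is finite-dimensional (`Submodule.comap`), and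
   `U ⊆ span_ℚ(range χ) c + (1 - χ(h0))⁻¹ span_ℚ D` finite-dimensional; `FR_of_span_fin`.
 * `D = 0`: `δ(h) = (χ(h) - 1) c`. If `c = 0` then `U = 0`. If `c ≠ 0`: `n δ(h0) ∈ U` for all `n : ℕ`, so `n (χ(h0) - 1) c = (χ(h) - 1) c` for some `h`: `1 + n (χ(h0) - 1) ∈ χ(H)` for all `n`; `poly_const` with
   `P = 1 + (χ(h0) - 1) X`, `c = 1`, `T` = the range of `H →* Kˣ` (`MonoidHom.toHomUnits χ`): `P` is constant, so `χ(h0) = 1`, contradiction.

`cross` (chain). For `Z` with `ReflTransGen (Stp S) ⊥ Z` (`S = range α`; so `Z` is `α`-invariant): `FR (Multiplicative (U ⊓ Z))` by induction. Step `X → Y`, `X ≠ Y` (else trivial): `c(h)` is unique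
(`w0 ∈ Y \ X`), multiplicative: `χ : H →* K`. `H_Y = {h : δ h ∈ Y}` is a subgroup; `δbar : H_Y → W ⧸ X`, `δbar(h h') = χ(h) δbar(h') + δbar(h)`, its image is the image of `U ⊓ Y` in `W ⧸ X`, an additive subgroup;
`cross_one` gives it finite rank; `FR.of_ker_range` for `Multiplicative (U ⊓ Y) → Multiplicative (W ⧸ X)` whose kernel embeds into `Multiplicative (U ⊓ X)`.
-/

set_option autoImplicit false

namespace P9700a

open Polynomial in
theorem cross_one {K W H : Type*} [Field K] [CharZero K] [AddCommGroup W] [Module K W] [Group H]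
    (hH : FR H) (χ : H →* K) (δ : H → W) (hδ : ∀ h h' : H, δ (h * h') = χ h • δ h' + δ h)
    (U : AddSubgroup W) (hU : ∀ w, w ∈ U ↔ ∃ h, δ h = w) : FR (Multiplicative U) := by
  classical
  have hδ1 : δ 1 = 0 := by
    have := hδ 1 1
    rw [one_mul, map_one, one_smul] at this
    exact left_eq_add.mp this
  have hinv : ∀ h, χ h • δ h⁻¹ + δ h = 0 := by
    intro h
    rw [← hδ, mul_inv_cancel, hδ1]
  -- the subgroup `D`
  let D : AddSubgroup W :=
    { carrier := {w | ∃ k, χ k = 1 ∧ δ k = w}
      zero_mem' := ⟨1, map_one χ, hδ1⟩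
      add_mem' := by
        rintro a b ⟨k, hk, rfl⟩ ⟨l, hl, rfl⟩
        refine ⟨l * k, by rw [map_mul, hk, hl, one_mul], ?_⟩
        rw [hδ, hl, one_smul]
      neg_mem' := by
        rintro a ⟨k, hk, rfl⟩
        have hk' : χ k⁻¹ = 1 := by
          have := map_mul χ k⁻¹ k
          rw [inv_mul_cancel, map_one, hk, mul_one] at this
          exact this.symm
        refine ⟨k⁻¹, hk', ?_⟩
        have := hinv k
        rw [hk, one_smul] at this
        exact eq_neg_of_add_eq_zero_left this }
  have hDmem : ∀ w, w ∈ D ↔ ∃ k, χ k = 1 ∧ δ k = w := fun w => Iff.rfl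
  have hDFR : FR (Multiplicative D) := by
    have h0 : FR χ.ker := FR.subgroup _ hH
    let f : χ.ker →* Multiplicative D :=
      { toFun := fun k => Multiplicative.ofAdd ⟨δ k.1, ⟨k.1, k.2, rfl⟩⟩
        map_one' := by
          apply Multiplicative.toAdd.injective
          apply Subtype.ext
          exact hδ1
        map_mul' := by
          intro x y
          apply Multiplicative.toAdd.injective
          apply Subtype.ext
          change δ (x.1 * y.1) = δ x.1 + δ y.1
          have hx : χ x.1 = 1 := x.2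
          rw [hδ, hx, one_smul, add_comm] }
    refine FR.of_surjective f ?_ h0
    intro w
    obtain ⟨k, hk, hkw⟩ := (Multiplicative.toAdd w).2
    refine ⟨⟨k, hk⟩, ?_⟩
    apply Multiplicative.toAdd.injective
    apply Subtype.ext
    exact hkw
  by_cases hχ : ∀ h, χ h = 1
  · have hUD : U = D := by
      ext w
      rw [hU, hDmem]
      constructor
      · rintro ⟨h, hh⟩
        exact ⟨h, hχ h, hh⟩
      · rintro ⟨h, _, hh⟩
        exact ⟨h, hh⟩
    rw [hUD]
    exact hDFR
  push Not at hχ
  obtain ⟨h0, hh0⟩ := hχ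
  have hne : (1 : K) - χ h0 ≠ 0 := sub_ne_zero.2 (Ne.symm hh0)
  have hne' : χ h0 - 1 ≠ 0 := sub_ne_zero.2 hh0
  set c : W := (χ h0 - 1)⁻¹ • δ h0 with hc
  have key : ∀ h, ∃ d ∈ D, δ h = (χ h - 1) • c + (1 - χ h0)⁻¹ • d := by
    intro h
    have hk : χ (h * h0 * h⁻¹ * h0⁻¹) = 1 := by
      have e1 : h * h0 * h⁻¹ * h0⁻¹ * (h0 * h) = h * h0 := by group
      have e2 := congrArg χ e1
      rw [map_mul, map_mul χ h0 h, map_mul χ h h0] at e2
      have e3 : χ h0 * χ h ≠ 0 := by
        have u1 : χ h * χ h⁻¹ = 1 := by rw [← map_mul, mul_inv_cancel, map_one]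
        have u2 : χ h0 * χ h0⁻¹ = 1 := by rw [← map_mul, mul_inv_cancel, map_one]
        exact mul_ne_zero (left_ne_zero_of_mul_eq_one u2) (left_ne_zero_of_mul_eq_one u1)
      have e4 : χ (h * h0 * h⁻¹ * h0⁻¹) * (χ h0 * χ h) = 1 * (χ h0 * χ h) := by
        rw [e2, one_mul, mul_comm]
      exact mul_right_cancel₀ e3 e4
    refine ⟨δ (h * h0 * h⁻¹ * h0⁻¹), ⟨_, hk, rfl⟩, ?_⟩
    have e1 : h * h0 * h⁻¹ * h0⁻¹ * (h0 * h) = h * h0 := by group
    have e2 : δ (h * h0 * h⁻¹ * h0⁻¹ * (h0 * h)) = δ (h * h0) := by rw [e1]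
    rw [hδ, hk, one_smul, hδ h0 h, hδ h h0] at e2
    -- `χ h0 • δ h + δ h0 + δ k = χ h • δ h0 + δ h`
    have e3 : (1 - χ h0) • δ h = (1 - χ h) • δ h0 + δ (h * h0 * h⁻¹ * h0⁻¹) := by
      rw [sub_smul, sub_smul, one_smul, one_smul]
      have : δ h = χ h0 • δ h + δ h0 + δ (h * h0 * h⁻¹ * h0⁻¹) - χ h • δ h0 := by
        rw [e2]; abel
      nth_rewrite 1 [this]
      abel
    have e4 : δ h = (1 - χ h0)⁻¹ • ((1 - χ h0) • δ h) := by
      rw [smul_smul, inv_mul_cancel₀ hne, one_smul]
    rw [e4, e3, smul_add, hc, smul_smul, smul_smul]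
    congr 2
    have e5 : (χ h0 - 1)⁻¹ = -(1 - χ h0)⁻¹ := by
      rw [← inv_neg, neg_sub]
    rw [e5]
    ring
  letI : Module ℚ W := Module.compHom W (algebraMap ℚ K)
  haveI : IsScalarTower ℚ K W := ⟨fun q k w => by
    rw [Algebra.smul_def, mul_smul]; rfl⟩
  have hspan := span_fin_of_FR D hDFR
  by_cases hD0 : ∃ d0 ∈ D, d0 ≠ 0
  · obtain ⟨d0, hd0, hd0'⟩ := hD0
    have hmul : ∀ h, χ h • d0 ∈ D := by
      intro h
      obtain ⟨k, hk, hkd⟩ := hd0
      have hk2 : χ (h * k * h⁻¹) = 1 := by
        rw [map_mul, map_mul, hk, mul_one, ← map_mul, mul_inv_cancel, map_one]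
      refine ⟨h * k * h⁻¹, hk2, ?_⟩
      rw [mul_assoc, hδ, hδ, hk, one_smul, smul_add, hkd]
      have := hinv h
      calc χ h • δ h⁻¹ + χ h • d0 + δ h = (χ h • δ h⁻¹ + δ h) + χ h • d0 := by abel
        _ = χ h • d0 := by rw [this, zero_add]
    let L : W → (K →ₗ[ℚ] W) := fun w => (LinearMap.toSpanSingleton K W w).restrictScalars ℚ
    have hL : ∀ w t, L w t = t • w := fun w t => rfl
    let Eχ : Submodule ℚ K := Submodule.span ℚ (Set.range χ)
    have hinj : Function.Injective (L d0) := by
      intro s t hst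
      rw [hL, hL] at hst
      exact smul_left_injective K hd0' hst
    have hle : Eχ.map (L d0) ≤ Submodule.span ℚ (D : Set W) := by
      rw [Submodule.map_span, Submodule.span_le]
      rintro _ ⟨_, ⟨h, rfl⟩, rfl⟩
      exact Submodule.subset_span (hmul h)
    haveI h1 : FiniteDimensional ℚ (Eχ.map (L d0)) := Submodule.finiteDimensional_of_le hle
    haveI h2 : FiniteDimensional ℚ Eχ :=
      LinearEquiv.finiteDimensional (Submodule.equivMapOfInjective (L d0) hinj Eχ).symm
    let Mu : W →ₗ[ℚ] W := ((1 - χ h0)⁻¹ • (LinearMap.id : W →ₗ[K] W)).restrictScalars ℚ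
    have hMu : ∀ w, Mu w = (1 - χ h0)⁻¹ • w := fun w => rfl
    let E : Submodule ℚ W := Eχ.map (L c) ⊔ (Submodule.span ℚ (D : Set W)).map Mu
    haveI : FiniteDimensional ℚ E := inferInstance
    refine FR_of_span_fin U E ?_
    intro w hw
    obtain ⟨h, rfl⟩ := (hU w).1 hw
    obtain ⟨d, hd, hdh⟩ := key h
    rw [hdh]
    refine Submodule.add_mem_sup ?_ ?_
    · refine ⟨χ h - 1, ?_, hL c _⟩
      have a1 : χ h ∈ Eχ := Submodule.subset_span ⟨h, rfl⟩
      have a2 : (1 : K) ∈ Eχ := Submodule.subset_span ⟨1, map_one χ⟩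
      exact Submodule.sub_mem _ a1 a2
    · exact ⟨d, Submodule.subset_span hd, hMu d⟩
  · push Not at hD0
    have key' : ∀ h, δ h = (χ h - 1) • c := by
      intro h
      obtain ⟨d, hd, hdh⟩ := key h
      rw [hdh, hD0 d hd, smul_zero, add_zero]
    by_cases hc0 : c = 0
    · refine FR_of_span_fin U (⊥ : Submodule ℚ W) ?_
      intro w hw
      obtain ⟨h, rfl⟩ := (hU w).1 hw
      rw [key' h, hc0, smul_zero]
      exact Submodule.zero_mem _
    · exfalso
      have hT : FR (MonoidHom.toHomUnits χ).range :=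
        FR.of_surjective (MonoidHom.toHomUnits χ).rangeRestrict
          (MonoidHom.rangeRestrict_surjective _) hH
      have h3 := poly_const (MonoidHom.toHomUnits χ).range hT (1 : K)
        (1 + C (χ h0 - 1) * X) (fun n => by
          have hn : n • δ h0 ∈ U := U.nsmul_mem ((hU _).2 ⟨h0, rfl⟩) n
          obtain ⟨h, hh⟩ := (hU _).1 hn
          refine ⟨MonoidHom.toHomUnits χ h, ⟨h, rfl⟩, ?_⟩
          have hh2 : (χ h - 1) • c = ((n : K) * (χ h0 - 1)) • c := by
            rw [← key' h, hh, mul_smul, ← key' h0, Nat.cast_smul_eq_nsmul]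
          have h4 := smul_left_injective K hc0 hh2
          have h5 : χ h = 1 + (χ h0 - 1) * n := by
            have : χ h - 1 = n * (χ h0 - 1) := h4
            linear_combination this
          rw [one_mul]
          change _ = χ h
          rw [h5]
          simp) one_ne_zero
      have h4 : (1 + C (χ h0 - 1) * X : K[X]).natDegree = 1 := by
        have : (1 + C (χ h0 - 1) * X : K[X]) = C (χ h0 - 1) * X + C 1 := by
          rw [map_one]; ring
        rw [this]
        exact natDegree_linear hne'
      rw [h3] at h4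
      exact absurd h4 (by norm_num)

theorem cross {K W H : Type*} [Field K] [CharZero K] [AddCommGroup W] [Module K W] [Group H]
    (hH : FR H) (α : H →* Module.End K W) (S : Set (Module.End K W)) (hS : TF S)
    (hα : ∀ h, α h ∈ S) (δ : H → W) (hδ : ∀ h h' : H, δ (h * h') = α h (δ h') + δ h)
    (U : AddSubgroup W) (hU : ∀ w, w ∈ U ↔ ∃ h, δ h = w) : FR (Multiplicative U) := by
  classical
  have hδ1 : δ 1 = 0 := by
    have := hδ 1 1
    rw [one_mul, map_one] at this
    exact left_eq_add.mp this
  have main : ∀ Z : Submodule K W, Relation.ReflTransGen (Stp S) ⊥ Z →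
      (∀ h, ∀ w ∈ Z, α h w ∈ Z) ∧ FR (Multiplicative (U ⊓ Z.toAddSubgroup : AddSubgroup W)) := by
    intro Z hZ
    induction hZ with
    | refl =>
      constructor
      · intro h w hw
        rw [Submodule.mem_bot] at hw ⊢
        rw [hw, map_zero]
      · haveI : Subsingleton
            (Multiplicative (U ⊓ (⊥ : Submodule K W).toAddSubgroup : AddSubgroup W)) := by
          constructor
          intro a b
          apply Multiplicative.toAdd.injective
          apply Subtype.ext
          have ha : ((Multiplicative.toAdd a :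
            (U ⊓ (⊥ : Submodule K W).toAddSubgroup : AddSubgroup W)) : W) = 0 :=
            (Submodule.mem_bot K).1 (Multiplicative.toAdd a).2.2
          have hb : ((Multiplicative.toAdd b :
            (U ⊓ (⊥ : Submodule K W).toAddSubgroup : AddSubgroup W)) : W) = 0 :=
            (Submodule.mem_bot K).1 (Multiplicative.toAdd b).2.2
          rw [ha, hb]
        exact FR.of_finite
    | @tail X Y hX hXY ih =>
      obtain ⟨hXinv, hXFR⟩ := ih
      obtain ⟨hle, hst⟩ := hXY
      have hst' : ∀ h, ∃ c : K, ∀ w ∈ Y, α h w - c • w ∈ X := fun h => hst _ (hα h)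
      have hYinv : ∀ h, ∀ w ∈ Y, α h w ∈ Y := by
        intro h w hw
        obtain ⟨c, hc⟩ := hst' h
        have : α h w = (α h w - c • w) + c • w := by abel
        rw [this]
        exact Y.add_mem (hle (hc w hw)) (Y.smul_mem c hw)
      refine ⟨hYinv, ?_⟩
      by_cases hXeq : X = Y
      · subst hXeq
        exact hXFR
      obtain ⟨w0, hw0Y, hw0X⟩ : ∃ w0 ∈ Y, w0 ∉ X := by
        by_contra hcon
        push Not at hcon
        exact hXeq (le_antisymm hle hcon)
      choose c hc using hst'
      have huniq : ∀ a b : K, ∀ v : W, v - a • w0 ∈ X → v - b • w0 ∈ X → a = b := by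
        intro a b v ha hb
        by_contra hab
        have h1 : (a - b) • w0 ∈ X := by
          have : (a - b) • w0 = (v - b • w0) - (v - a • w0) := by
            rw [sub_smul]; abel
          rw [this]
          exact X.sub_mem hb ha
        exact hw0X ((X.smul_mem_iff (sub_ne_zero.2 hab)).1 h1)
      let χ : H →* K :=
        { toFun := c
          map_one' := by
            apply huniq (c 1) 1 w0 _ _
            · have := hc 1 w0 hw0Y
              rwa [map_one] at this
            · rw [one_smul, sub_self]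
              exact X.zero_mem
          map_mul' := by
            intro h h'
            apply huniq _ _ (α (h * h') w0) (hc (h * h') w0 hw0Y)
            have h1 := hc h' w0 hw0Y
            have h2 := hXinv h _ h1
            have h3 := hc h w0 hw0Y
            have h4 : α (h * h') w0 - (c h * c h') • w0 =
                α h (α h' w0 - c h' • w0) + c h' • (α h w0 - c h • w0) := by
              rw [map_mul, map_sub, map_smul, smul_sub, smul_smul, mul_comm (c h) (c h')]
              change α h (α h' w0) - _ = _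
              abel
            rw [h4]
            exact X.add_mem h2 (X.smul_mem _ h3) }
      have hχ : ∀ h, ∀ w ∈ Y, α h w - χ h • w ∈ X := fun h w hw => hc h w hw
      let HY : Subgroup H :=
        { carrier := {h | δ h ∈ Y}
          one_mem' := by
            change δ 1 ∈ Y
            rw [hδ1]; exact Y.zero_mem
          mul_mem' := by
            intro a b ha hb
            change δ (a * b) ∈ Y
            rw [hδ]
            exact Y.add_mem (hYinv a _ hb) ha
          inv_mem' := by
            intro a ha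
            change δ a⁻¹ ∈ Y
            have h1 : α a⁻¹ (δ a) + δ a⁻¹ = 0 := by rw [← hδ, inv_mul_cancel, hδ1]
            rw [eq_neg_of_add_eq_zero_right h1]
            exact Y.neg_mem (hYinv _ _ ha) }
      let UY : AddSubgroup W := U ⊓ Y.toAddSubgroup
      let U' : AddSubgroup (W ⧸ X) := UY.map X.mkQ.toAddMonoidHom
      have hFR' : FR (Multiplicative U') := by
        refine cross_one (FR.subgroup HY hH) (χ.comp HY.subtype) (fun h => X.mkQ (δ h.1)) ?_ U' ?_
        · intro h h'
          change X.mkQ (δ (h.1 * h'.1)) = χ h.1 • X.mkQ (δ h'.1) + X.mkQ (δ h.1)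
          rw [hδ, map_add, ← map_smul]
          congr 1
          rw [← sub_eq_zero, ← map_sub, Submodule.mkQ_apply, Submodule.Quotient.mk_eq_zero]
          exact hχ _ _ h'.2
        · intro w
          constructor
          · rintro ⟨u, ⟨hu1, hu2⟩, rfl⟩
            obtain ⟨h, rfl⟩ := (hU u).1 hu1
            exact ⟨⟨h, hu2⟩, rfl⟩
          · rintro ⟨h, rfl⟩
            exact ⟨δ h.1, ⟨(hU _).2 ⟨h.1, rfl⟩, h.2⟩, rfl⟩
      let f : Multiplicative UY →* Multiplicative U' :=
        { toFun := fun u => Multiplicative.ofAdd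
            ⟨X.mkQ ((Multiplicative.toAdd u : UY) : W), ⟨_, (Multiplicative.toAdd u).2, rfl⟩⟩
          map_one' := by
            apply Multiplicative.toAdd.injective
            apply Subtype.ext
            exact map_zero X.mkQ
          map_mul' := by
            intro a b
            apply Multiplicative.toAdd.injective
            apply Subtype.ext
            exact map_add X.mkQ _ _ }
      refine FR.of_ker_range f ?_ (FR.subgroup _ hFR')
      let g : f.ker →* Multiplicative (U ⊓ X.toAddSubgroup : AddSubgroup W) :=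
        { toFun := fun u => Multiplicative.ofAdd ⟨((Multiplicative.toAdd u.1 : UY) : W),
            ⟨(Multiplicative.toAdd u.1).2.1, by
              have h1 : f u.1 = 1 := u.2
              have h2 : X.mkQ ((Multiplicative.toAdd u.1 : UY) : W) = 0 :=
                congrArg (fun z : Multiplicative U' => ((Multiplicative.toAdd z : U') : W ⧸ X)) h1
              rw [Submodule.mkQ_apply, Submodule.Quotient.mk_eq_zero] at h2
              exact h2⟩⟩
          map_one' := rfl
          map_mul' := fun _ _ => rfl }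
      refine FR.of_injective g ?_ hXFR
      intro a b hab
      apply Subtype.ext
      apply Multiplicative.toAdd.injective
      apply Subtype.ext
      exact congrArg (fun z : Multiplicative (U ⊓ X.toAddSubgroup : AddSubgroup W) =>
        ((Multiplicative.toAdd z : (U ⊓ X.toAddSubgroup : AddSubgroup W)) : W)) hab
  have h1 := (main ⊤ hS).2
  rw [Submodule.top_toAddSubgroup, inf_top_eq] at h1
  exact h1

end P9700a
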