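import Mathlib
import Pool.Agent.Lib.P9700a.Defs
import Pool.Agent.Lib.P9700a.Rank
import Pool.Agent.Lib.P9700a.Poly
import Pool.Agent.Lib.P9700a.ChainB

/-!
# Irreducible case: no unipotents

Proof. `TF.semi` for `ρ '' A`: `f ≠ 0` with `f (ρ a w) = χ(a) f w`; `TF.eigen` for `ρ '' B`: `v ≠ 0`, `ρ b v = ψ(b) v`. `χ(a) ≠ 0` (as `f ∘ ρ(a) ≠ 0`) is unique,
so `χ : A →* Kˣ` is a homomorphism; same for `ψ : B →* Kˣ`. `T = {χ(a) ψ(b)}` = range of the homomorphism `A × B → Kˣ`, `FR T` (`FR.prod`, `FR.of_surjective` onto the range).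
`f v ≠ 0`: otherwise `f (ρ (a*b) v) = χ(a) ψ(b) f v = 0` for all `a, b`, so `f` vanishes on the span of the orbit of `v`, an invariant nonzero subspace, `= ⊤` by irreducibility.
So `f (ρ g v) ∈ f(v) T` for all `g`. For `u` with `ρ u - 1` nilpotent, `g, h : G`: `n ↦ f (ρ (g * u^n * h) v) = (f ∘ ρ g) ((ρ u)^n (ρ h v))` is a polynomial
(`exists_poly_of_unipotent`), constant by `poly_const`; values at `0` and `1`: `f (ρ g ((ρ u - 1) (ρ h v))) = 0`. The subspace
`X = {w : ∀ g, f (ρ g w) = 0}` is invariant and `≠ ⊤` (as `f ≠ 0`, `g = 1`), so `⊥`; hence `(ρ u - 1)(ρ h v) = 0` for all `h`, and `ρ u - 1` vanishes on the span of the orbit of `v`, `= ⊤`.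
-/

set_option autoImplicit false

namespace P9700a

theorem unip_trivial {K V G : Type*} [Field K] [CharZero K] [AddCommGroup V] [Module K V]
    [Group G] (ρ : G →* Module.End K V) (A B : Subgroup G) (hA : FR A) (hB : FR B)
    (hAB : ∀ g : G, ∃ a ∈ A, ∃ b ∈ B, g = a * b)
    (hTA : TF (ρ '' (A : Set G))) (hTB : TF (ρ '' (B : Set G))) (hV : Nontrivial V)
    (hirr : ∀ X : Submodule K V, (∀ g : G, ∀ x ∈ X, ρ g x ∈ X) → X = ⊥ ∨ X = ⊤)
    (u : G) (hu : IsNilpotent (ρ u - 1)) : ρ u = 1 := by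
  classical
  obtain ⟨f, hf0, hf⟩ := hTA.semi
  obtain ⟨v, hv0, hv⟩ := hTB.eigen
  choose χ hχ using fun a : A => hf (ρ (a : G)) ⟨(a : G), a.2, rfl⟩
  choose ψ hψ using fun b : B => hv (ρ (b : G)) ⟨(b : G), b.2, rfl⟩
  obtain ⟨w0, hw0⟩ : ∃ w, f w ≠ 0 := by
    by_contra h
    push Not at h
    exact hf0 (LinearMap.ext h)
  let χM : A →* K :=
    { toFun := χ
      map_one' := by
        have h := hχ 1 w0
        rw [OneMemClass.coe_one, map_one, Module.End.one_apply] at h
        exact (mul_right_cancel₀ hw0 (h.symm.trans (one_mul _).symm))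
      map_mul' := fun a b => by
        have h := hχ (a * b) w0
        rw [Subgroup.coe_mul, map_mul, Module.End.mul_apply, hχ a, hχ b, ← mul_assoc] at h
        exact (mul_right_cancel₀ hw0 h.symm) }
  let ψM : B →* K :=
    { toFun := ψ
      map_one' := by
        have h := hψ 1
        rw [OneMemClass.coe_one, map_one, Module.End.one_apply] at h
        exact (smul_left_injective K hv0 (h.symm.trans (one_smul K v).symm))
      map_mul' := fun a b => by
        have h := hψ (a * b)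
        rw [Subgroup.coe_mul, map_mul, Module.End.mul_apply, hψ b, map_smul, hψ a, smul_smul,
          mul_comm] at h
        exact (smul_left_injective K hv0 h.symm) }
  let Θ : A × B →* Kˣ :=
    (χM.toHomUnits.comp (MonoidHom.fst A B)) * (ψM.toHomUnits.comp (MonoidHom.snd A B))
  have hT : FR Θ.range := FR.of_surjective Θ.rangeRestrict Θ.rangeRestrict_surjective
    (FR.prod hA hB)
  have horb : ∀ g : G, ∃ t ∈ Θ.range, f (ρ g v) = f v * ((t : Kˣ) : K) := by
    intro g
    obtain ⟨a, ha, b, hb, rfl⟩ := hAB g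
    refine ⟨Θ (⟨a, ha⟩, ⟨b, hb⟩), ⟨_, rfl⟩, ?_⟩
    have h1 : ((Θ (⟨a, ha⟩, ⟨b, hb⟩) : Kˣ) : K) = χ ⟨a, ha⟩ * ψ ⟨b, hb⟩ := rfl
    rw [h1, map_mul, Module.End.mul_apply, hψ ⟨b, hb⟩, hχ ⟨a, ha⟩, map_smul, smul_eq_mul]
    ring
  -- the subspace of the vectors whose orbit is killed by `f`
  let X : Submodule K V := ⨅ g : G, LinearMap.ker (f ∘ₗ (ρ g : V →ₗ[K] V))
  have hXm : ∀ w, w ∈ X ↔ ∀ g : G, f (ρ g w) = 0 := fun w => by
    simp only [X, Submodule.mem_iInf, LinearMap.mem_ker, LinearMap.comp_apply]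
  have hXinv : ∀ g : G, ∀ x ∈ X, ρ g x ∈ X := by
    intro g x hx
    rw [hXm] at hx ⊢
    intro g'
    rw [← Module.End.mul_apply, ← map_mul]
    exact hx _
  have hX : X = ⊥ := by
    rcases hirr X hXinv with h | h
    · exact h
    · exfalso
      have h1 : w0 ∈ X := h ▸ Submodule.mem_top
      have h2 := (hXm w0).1 h1 1
      rw [map_one, Module.End.one_apply] at h2
      exact hw0 h2
  have hfv : f v ≠ 0 := by
    intro h
    apply hv0
    have h1 : v ∈ X := (hXm v).2 fun g => by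
      obtain ⟨t, _, ht⟩ := horb g
      rw [ht, h, zero_mul]
    rw [hX] at h1
    exact (Submodule.mem_bot K).1 h1
  have key : ∀ h : G, (ρ u - 1) (ρ h v) = 0 := by
    intro h
    have h1 : (ρ u - 1) (ρ h v) ∈ X := by
      rw [hXm]
      intro g
      obtain ⟨P, hP⟩ := exists_poly_of_unipotent (ρ u) hu (f ∘ₗ (ρ g : V →ₗ[K] V)) (ρ h v)
      have hPn : ∀ n : ℕ, P.eval (n : K) = f (ρ (g * u ^ n * h) v) := by
        intro n
        rw [hP, LinearMap.comp_apply, ← map_pow, ← Module.End.mul_apply (ρ (u ^ n)), ← map_mul,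
          ← Module.End.mul_apply, ← map_mul, mul_assoc]
      have hdeg := poly_const Θ.range hT (f v) P (fun n => by
        obtain ⟨t, ht, htv⟩ := horb (g * u ^ n * h)
        exact ⟨t, ht, (hPn n).trans htv⟩) hfv
      have hC := Polynomial.eq_C_of_natDegree_eq_zero hdeg
      have h01 : P.eval ((0 : ℕ) : K) = P.eval ((1 : ℕ) : K) := by
        rw [hC, Polynomial.eval_C, Polynomial.eval_C]
      rw [hP, hP, pow_zero, pow_one, LinearMap.comp_apply, LinearMap.comp_apply,
        Module.End.one_apply] at h01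
      rw [LinearMap.sub_apply, Module.End.one_apply, map_sub, map_sub]
      exact sub_eq_zero.2 h01.symm
    rw [hX] at h1
    exact (Submodule.mem_bot K).1 h1
  let Y : Submodule K V := ⨅ g : G, LinearMap.ker (((ρ u - 1 : Module.End K V) : V →ₗ[K] V) ∘ₗ
    (ρ g : V →ₗ[K] V))
  have hYm : ∀ w, w ∈ Y ↔ ∀ g : G, (ρ u - 1) (ρ g w) = 0 := fun w => by
    simp only [Y, Submodule.mem_iInf, LinearMap.mem_ker, LinearMap.comp_apply]
  have hYinv : ∀ g : G, ∀ x ∈ Y, ρ g x ∈ Y := by
    intro g x hx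
    rw [hYm] at hx ⊢
    intro g'
    rw [← Module.End.mul_apply (ρ g'), ← map_mul]
    exact hx _
  have hY : Y = ⊤ := by
    rcases hirr Y hYinv with h | h
    · exfalso
      have h1 : v ∈ Y := (hYm v).2 key
      rw [h] at h1
      exact hv0 ((Submodule.mem_bot K).1 h1)
    · exact h
  refine LinearMap.ext fun w => ?_
  have h1 : w ∈ Y := hY ▸ Submodule.mem_top
  have h2 := (hYm w).1 h1 1
  rw [map_one, Module.End.one_apply, LinearMap.sub_apply, sub_eq_zero] at h2
  exact h2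

end P9700a
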