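import Mathlib

/-!
# Itô's theorem: a product of two abelian groups is metabelian

Proof. `⁅x, y⁆ = x y x⁻¹ y⁻¹`. For `a, a1 ∈ A`, `b, b1 ∈ B` write `a1 b a1⁻¹ = b2 a2` and `b1 a b1⁻¹ = a3 b3`
(every element of `G` is also a product `b a`, invert). Then
`(b1 a1) ⁅a,b⁆ (b1 a1)⁻¹ = b1 ⁅a, b2 a2⁆ b1⁻¹ = b1 ⁅a, b2⁆ b1⁻¹ = ⁅a3 b3, b2⁆ = ⁅a3, b2⁆` and
`(a1 b1) ⁅a,b⁆ (a1 b1)⁻¹ = a1 ⁅a3 b3, b⁆ a1⁻¹ = a1 ⁅a3, b⁆ a1⁻¹ = ⁅a3, b2 a2⁆ = ⁅a3, b2⁆`.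
So `⁅a, b⁆` commutes with `⁅a1⁻¹, b1⁻¹⁆` (all `a, a1, b, b1`). The set of all `⁅a, b⁆` is normalised by `A` and by `B`
(same computations), so it generates a normal subgroup `C`, abelian; `G / C` is abelian (generated by the commuting abelian
images), so `commutator G ≤ C`.
-/

set_option autoImplicit false

namespace P9700a

namespace ItoAux

/-- the commutator with a second argument `b a'` -/
theorem comm_right {G : Type*} [Group G] {a a' b : G} (h : a * a' = a' * a) :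
    a * (b * a') * a⁻¹ * (b * a')⁻¹ = a * b * a⁻¹ * b⁻¹ := by
  have h1 : a' * a⁻¹ = a⁻¹ * a' := by
    rw [eq_inv_mul_iff_mul_eq, ← mul_assoc, h, mul_assoc, mul_inv_cancel, mul_one]
  calc a * (b * a') * a⁻¹ * (b * a')⁻¹ = a * b * (a' * a⁻¹) * (a'⁻¹ * b⁻¹) := by group
    _ = a * b * a⁻¹ * b⁻¹ := by rw [h1]; group

/-- the commutator with a first argument `a b'` -/
theorem comm_left {G : Type*} [Group G] {a b b' : G} (h : b * b' = b' * b) :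
    (a * b') * b * (a * b')⁻¹ * b⁻¹ = a * b * a⁻¹ * b⁻¹ := by
  calc (a * b') * b * (a * b')⁻¹ * b⁻¹ = a * (b' * b) * (b'⁻¹ * a⁻¹) * b⁻¹ := by group
    _ = a * b * a⁻¹ * b⁻¹ := by rw [← h]; group

end ItoAux

open ItoAux in
theorem ito {G : Type*} [Group G] (A B : Subgroup G)
    (hA : ∀ x ∈ A, ∀ y ∈ A, x * y = y * x) (hB : ∀ x ∈ B, ∀ y ∈ B, x * y = y * x)
    (hAB : ∀ g : G, ∃ a ∈ A, ∃ b ∈ B, g = a * b) :
    ∀ x ∈ commutator G, ∀ y ∈ commutator G, x * y = y * x := by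
  have hBA : ∀ g : G, ∃ b ∈ B, ∃ a ∈ A, g = b * a := by
    intro g
    obtain ⟨a, ha, b, hb, h⟩ := hAB g⁻¹
    refine ⟨b⁻¹, B.inv_mem hb, a⁻¹, A.inv_mem ha, ?_⟩
    rw [← inv_inv g, h]; group
  have conjA : ∀ a1 ∈ A, ∀ b : G, ∀ b2 : G, ∀ a2 ∈ A, a1 * b * a1⁻¹ = b2 * a2 → ∀ a ∈ A,
      a1 * (a * b * a⁻¹ * b⁻¹) * a1⁻¹ = a * b2 * a⁻¹ * b2⁻¹ := by
    intro a1 h1 b b2 a2 h2 hb a ha
    rw [← comm_right (b := b2) (hA a ha a2 h2), ← hb]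
    have e1 : a1 * a = a * a1 := hA a1 h1 a ha
    have e2 : a1 * a⁻¹ = a⁻¹ * a1 := hA a1 h1 _ (A.inv_mem ha)
    calc a1 * (a * b * a⁻¹ * b⁻¹) * a1⁻¹ = (a1 * a) * b * a⁻¹ * b⁻¹ * a1⁻¹ := by group
      _ = a * (a1 * b * a1⁻¹) * (a1 * a⁻¹) * b⁻¹ * a1⁻¹ := by rw [e1]; group
      _ = a * (a1 * b * a1⁻¹) * a⁻¹ * (a1 * b * a1⁻¹)⁻¹ := by rw [e2]; group
  have conjB : ∀ b1 ∈ B, ∀ a : G, ∀ a3 : G, ∀ b3 ∈ B, b1 * a * b1⁻¹ = a3 * b3 → ∀ b ∈ B,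
      b1 * (a * b * a⁻¹ * b⁻¹) * b1⁻¹ = a3 * b * a3⁻¹ * b⁻¹ := by
    intro b1 h1 a a3 b3 h3 ha b hb
    rw [← comm_left (a := a3) (hB b hb b3 h3), ← ha]
    have e1 : b * b1 = b1 * b := hB b hb b1 h1
    have e2 : b⁻¹ * b1⁻¹ = b1⁻¹ * b⁻¹ := hB _ (B.inv_mem hb) _ (B.inv_mem h1)
    calc b1 * (a * b * a⁻¹ * b⁻¹) * b1⁻¹ = b1 * a * b * a⁻¹ * (b⁻¹ * b1⁻¹) := by group
      _ = (b1 * a * b1⁻¹) * (b1 * b) * a⁻¹ * b1⁻¹ * b⁻¹ := by rw [e2]; group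
      _ = (b1 * a * b1⁻¹) * b * (b1 * a * b1⁻¹)⁻¹ * b⁻¹ := by rw [← e1]; group
  -- the generators commute
  have key : ∀ a ∈ A, ∀ b ∈ B, ∀ a1 ∈ A, ∀ b1 ∈ B,
      (b1 * a1) * (a * b * a⁻¹ * b⁻¹) * (b1 * a1)⁻¹ =
        (a1 * b1) * (a * b * a⁻¹ * b⁻¹) * (a1 * b1)⁻¹ := by
    intro a ha b hb a1 ha1 b1 hb1
    obtain ⟨b2, hb2, a2, ha2, h2⟩ := hBA (a1 * b * a1⁻¹)
    obtain ⟨a3, ha3, b3, hb3, h3⟩ := hAB (b1 * a * b1⁻¹)
    have l : (b1 * a1) * (a * b * a⁻¹ * b⁻¹) * (b1 * a1)⁻¹ = a3 * b2 * a3⁻¹ * b2⁻¹ := by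
      rw [← conjB b1 hb1 a a3 b3 hb3 h3 b2 hb2, ← conjA a1 ha1 b b2 a2 ha2 h2 a ha]
      group
    have r : (a1 * b1) * (a * b * a⁻¹ * b⁻¹) * (a1 * b1)⁻¹ = a3 * b2 * a3⁻¹ * b2⁻¹ := by
      rw [← conjA a1 ha1 b b2 a2 ha2 h2 a3 ha3, ← conjB b1 hb1 a a3 b3 hb3 h3 b hb]
      group
    rw [l, r]
  set S : Set G := {g | ∃ a ∈ A, ∃ b ∈ B, g = a * b * a⁻¹ * b⁻¹} with hS
  have hcomm : ∀ x ∈ S, ∀ y ∈ S, y * x = x * y := by
    rintro x ⟨a, ha, b, hb, rfl⟩ y ⟨a1, ha1, b1, hb1, rfl⟩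
    have := key a ha b hb a1⁻¹ (A.inv_mem ha1) b1⁻¹ (B.inv_mem hb1)
    set c := a * b * a⁻¹ * b⁻¹
    have h2 := congrArg (fun t => a1 * b1 * t * (b1⁻¹ * a1⁻¹)) this
    have l : a1 * b1 * ((b1⁻¹ * a1⁻¹) * c * (b1⁻¹ * a1⁻¹)⁻¹) * (b1⁻¹ * a1⁻¹) = c := by group
    have r : a1 * b1 * ((a1⁻¹ * b1⁻¹) * c * (a1⁻¹ * b1⁻¹)⁻¹) * (b1⁻¹ * a1⁻¹) =
        (a1 * b1 * a1⁻¹ * b1⁻¹) * c * (a1 * b1 * a1⁻¹ * b1⁻¹)⁻¹ := by group
    rw [l, r] at h2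
    exact (eq_mul_inv_iff_mul_eq.1 h2).symm
  set C : Subgroup G := Subgroup.closure S with hC
  have hCc : ∀ x ∈ C, ∀ y ∈ C, x * y = y * x := by
    have h1 : C ≤ Subgroup.centralizer S := by
      rw [hC, Subgroup.closure_le]
      intro x hx
      rw [SetLike.mem_coe, Subgroup.mem_centralizer_iff]
      intro y hy
      exact hcomm x hx y hy
    have h2 : C ≤ Subgroup.centralizer (C : Set G) := by
      conv_lhs => rw [hC]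
      rw [Subgroup.closure_le]
      intro x hx
      rw [SetLike.mem_coe, Subgroup.mem_centralizer_iff]
      intro y hy
      exact (Subgroup.mem_centralizer_iff.1 (h1 hy) x hx).symm
    intro x hx y hy
    exact Subgroup.mem_centralizer_iff.1 (h2 hy) x hx
  have hnorm : C.Normal := by
    have hcA : ∀ a1 ∈ A, ∀ x ∈ C, a1 * x * a1⁻¹ ∈ C := by
      intro a1 ha1 x hx
      induction hx using Subgroup.closure_induction with
      | mem x hx =>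
        obtain ⟨a, ha, b, hb, rfl⟩ := hx
        obtain ⟨b2, hb2, a2, ha2, h2⟩ := hBA (a1 * b * a1⁻¹)
        rw [conjA a1 ha1 b b2 a2 ha2 h2 a ha]
        exact Subgroup.subset_closure ⟨a, ha, b2, hb2, rfl⟩
      | one => simp
      | mul x y _ _ hx hy =>
        have : a1 * (x * y) * a1⁻¹ = (a1 * x * a1⁻¹) * (a1 * y * a1⁻¹) := by group
        rw [this]; exact C.mul_mem hx hy
      | inv x _ hx =>
        have : a1 * x⁻¹ * a1⁻¹ = (a1 * x * a1⁻¹)⁻¹ := by group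
        rw [this]; exact C.inv_mem hx
    have hcB : ∀ b1 ∈ B, ∀ x ∈ C, b1 * x * b1⁻¹ ∈ C := by
      intro b1 hb1 x hx
      induction hx using Subgroup.closure_induction with
      | mem x hx =>
        obtain ⟨a, ha, b, hb, rfl⟩ := hx
        obtain ⟨a3, ha3, b3, hb3, h3⟩ := hAB (b1 * a * b1⁻¹)
        rw [conjB b1 hb1 a a3 b3 hb3 h3 b hb]
        exact Subgroup.subset_closure ⟨a3, ha3, b, hb, rfl⟩
      | one => simp
      | mul x y _ _ hx hy =>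
        have : b1 * (x * y) * b1⁻¹ = (b1 * x * b1⁻¹) * (b1 * y * b1⁻¹) := by group
        rw [this]; exact C.mul_mem hx hy
      | inv x _ hx =>
        have : b1 * x⁻¹ * b1⁻¹ = (b1 * x * b1⁻¹)⁻¹ := by group
        rw [this]; exact C.inv_mem hx
    refine ⟨fun n hn g => ?_⟩
    obtain ⟨a, ha, b, hb, rfl⟩ := hAB g
    have : a * b * n * (a * b)⁻¹ = a * (b * n * b⁻¹) * a⁻¹ := by group
    rw [this]
    exact hcA a ha _ (hcB b hb n hn)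
  have hle : commutator G ≤ C := by
    have := hnorm
    rw [commutator_def, Subgroup.commutator_le]
    intro g _ h _
    have hq : ∀ a ∈ A, ∀ b ∈ B, (a : G ⧸ C) * (b : G ⧸ C) = (b : G ⧸ C) * (a : G ⧸ C) := by
      intro a ha b hb
      rw [← QuotientGroup.mk_mul, ← QuotientGroup.mk_mul, eq_comm, QuotientGroup.eq]
      have h0 : a * b * a⁻¹ * b⁻¹ ∈ C := Subgroup.subset_closure ⟨a, ha, b, hb, rfl⟩
      have h1 := hnorm.conj_mem _ h0 (b * a)⁻¹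
      have e : (b * a)⁻¹ * (a * b * a⁻¹ * b⁻¹) * ((b * a)⁻¹)⁻¹ = (b * a)⁻¹ * (a * b) := by group
      rwa [e] at h1
    have hc : (g : G ⧸ C) * (h : G ⧸ C) = (h : G ⧸ C) * (g : G ⧸ C) := by
      obtain ⟨a, ha, b, hb, rfl⟩ := hAB g
      obtain ⟨a', ha', b', hb', rfl⟩ := hAB h
      have eA : (a : G ⧸ C) * (a' : G ⧸ C) = (a' : G ⧸ C) * (a : G ⧸ C) := by
        rw [← QuotientGroup.mk_mul, hA a ha a' ha', QuotientGroup.mk_mul]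
      have eB : (b : G ⧸ C) * (b' : G ⧸ C) = (b' : G ⧸ C) * (b : G ⧸ C) := by
        rw [← QuotientGroup.mk_mul, hB b hb b' hb', QuotientGroup.mk_mul]
      have e1 := hq a ha b' hb'
      have e2 := hq a' ha' b hb
      rw [QuotientGroup.mk_mul, QuotientGroup.mk_mul]
      calc (a : G ⧸ C) * b * (a' * b') = a * (b * a') * b' := by simp only [mul_assoc]
        _ = (a * a') * (b * b') := by rw [← e2]; simp only [mul_assoc]
        _ = a' * (a * b') * b := by rw [eA, eB]; simp only [mul_assoc]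
        _ = a' * b' * (a * b) := by rw [e1]; simp only [mul_assoc]
    rw [commutatorElement_def, ← QuotientGroup.eq_one_iff]
    simp only [QuotientGroup.mk_mul, QuotientGroup.mk_inv]
    rw [hc]; group
  intro x hx y hy
  exact hCc x (hle hx) y (hle hy)

end P9700a
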