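import Mathlib

/-!
# An abelian normal subgroup of a linear group without unipotents has a centralizer of finite index

Proof. For `χ : N → K` let `W χ = ⨅ n : N, (ρ n).maxGenEigenspace (χ n)`. As the `ρ n` commute and `K` is algebraically closed
`⨆ χ, W χ = ⊤` (`Module.End.iSup_iInf_maxGenEigenspace_eq_top_of_iSup_maxGenEigenspace_eq_top_of_commute`, `Module.End.iSup_maxGenEigenspace_eq_top`), and the `W χ` are
independent (`Module.End.independent_iInf_maxGenEigenspace_of_forall_mapsTo`, `Module.End.mapsTo_maxGenEigenspace_of_comm`), so `Ω = {χ | W χ ≠ ⊥}` is finite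
(`WellFoundedGT.finite_ne_bot_of_iSupIndep`). For `g : G`, `χ^g (n) = χ (g⁻¹ n g)`; `ρ g` maps `W χ` onto `W (χ^g)`. So `G` acts on the finite set `Ω`; the kernel `C` has finite index
(`Subgroup.finiteIndex_ker` for `G →* Equiv.Perm Ω`, or: for each `χ ∈ Ω` the stabiliser has finite index, finite intersection). For `g ∈ C`, `n ∈ N`: on each nonzero `W χ` both `ρ (g n g⁻¹)` and
`ρ n` have generalised eigenvalue `χ n`; they commute, so `ρ (g n g⁻¹) - ρ n` is nilpotent on `W χ` (`Module.End.genEigenspace_inf_le_add` with `f₂ = - ρ n`),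
so `maxGenEigenspace (ρ (g n g⁻¹) - ρ n) 0 = ⊤` and `ρ (g n g⁻¹) - ρ n` is nilpotent; multiply by the commuting `ρ n⁻¹`: `ρ (g n g⁻¹ n⁻¹) - 1` is nilpotent, so
`g n g⁻¹ n⁻¹ = 1`.  Hence `C ≤ centralizer N` (`Subgroup.finiteIndex_of_le`).
-/

set_option autoImplicit false

namespace P9700a

namespace WeightsAux

variable {K V G : Type*} [Field K] [AddCommGroup V] [Module K V] [Group G]

/-- conjugation on a normal subgroup -/
def cj (N : Subgroup G) [hN : N.Normal] (g : G) (n : N) : N :=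
  ⟨g⁻¹ * n * g, hN.conj_mem' n n.2 g⟩

theorem cj_one (N : Subgroup G) [N.Normal] (n : N) : cj N 1 n = n := by
  apply Subtype.ext
  show (1 : G)⁻¹ * n * 1 = n
  simp

theorem cj_mul (N : Subgroup G) [N.Normal] (g h : G) (n : N) :
    cj N (g * h) n = cj N h (cj N g n) := by
  apply Subtype.ext
  show (g * h)⁻¹ * n * (g * h) = h⁻¹ * (g⁻¹ * n * g) * h
  group

/-- the joint generalised eigenspace -/
def W (ρ : G →* Module.End K V) (N : Subgroup G) (χ : N → K) : Submodule K V :=
  ⨅ n : N, (ρ n).maxGenEigenspace (χ n)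

theorem mem_W {ρ : G →* Module.End K V} {N : Subgroup G} {χ : N → K} {w : V} :
    w ∈ W ρ N χ ↔ ∀ n : N, w ∈ (ρ n).maxGenEigenspace (χ n) := by
  unfold W
  rw [Submodule.mem_iInf]

theorem map_W {ρ : G →* Module.End K V} {N : Subgroup G} [N.Normal] {χ : N → K} {w : V}
    (hw : w ∈ W ρ N χ) (g : G) : ρ g w ∈ W ρ N (fun n => χ (cj N g n)) := by
  rw [mem_W] at hw ⊢
  intro n
  have h1 := hw (cj N g n)
  rw [Module.End.mem_maxGenEigenspace] at h1 ⊢
  obtain ⟨k, hk⟩ := h1
  refine ⟨k, ?_⟩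
  have h2 : SemiconjBy (ρ g) (ρ (cj N g n) - χ (cj N g n) • (1 : Module.End K V))
      (ρ n - χ (cj N g n) • (1 : Module.End K V)) := by
    show ρ g * (ρ (cj N g n) - χ (cj N g n) • (1 : Module.End K V)) =
      (ρ n - χ (cj N g n) • (1 : Module.End K V)) * ρ g
    rw [mul_sub, sub_mul, ← map_mul, ← map_mul]
    have h3 : g * (cj N g n : G) = n * g := by
      show g * (g⁻¹ * n * g) = n * g
      group
    rw [h3, mul_smul_comm, smul_mul_assoc, mul_one, one_mul]
  have h4 := h2.pow_right k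
  have h5 : ((ρ n - χ (cj N g n) • (1 : Module.End K V)) ^ k) (ρ g w) =
      ρ g (((ρ (cj N g n) - χ (cj N g n) • (1 : Module.End K V)) ^ k) w) := by
    have := congrArg (fun f : Module.End K V => f w) h4.eq
    exact this.symm
  rw [h5, hk, map_zero]

theorem map_W_ne {ρ : G →* Module.End K V} {N : Subgroup G} [N.Normal] {χ : N → K}
    (h : W ρ N χ ≠ ⊥) (g : G) : W ρ N (fun n => χ (cj N g n)) ≠ ⊥ := by
  obtain ⟨w, hw, hw0⟩ := Submodule.exists_mem_ne_zero_of_ne_bot h
  intro h1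
  have h2 := map_W hw g
  rw [h1, Submodule.mem_bot] at h2
  apply hw0
  have h3 : ρ g⁻¹ (ρ g w) = w := by
    have : (ρ g⁻¹ * ρ g) w = w := by rw [← map_mul, inv_mul_cancel, map_one]; rfl
    exact this
  rw [← h3, h2, map_zero]

/-- the action on the weights -/
noncomputable instance wAct (ρ : G →* Module.End K V) (N : Subgroup G) [N.Normal] :
    MulAction G {χ : N → K // W ρ N χ ≠ ⊥} where
  smul g x := ⟨fun n => x.1 (cj N g n), map_W_ne x.2 g⟩
  one_smul x := by
    apply Subtype.ext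
    show (fun n => x.1 (cj N 1 n)) = x.1
    funext n
    rw [cj_one]
  mul_smul g h x := by
    apply Subtype.ext
    show (fun n => x.1 (cj N (g * h) n)) = fun n => x.1 (cj N h (cj N g n))
    funext n
    rw [cj_mul]

theorem smul_val (ρ : G →* Module.End K V) (N : Subgroup G) [N.Normal] (g : G)
    (x : {χ : N → K // W ρ N χ ≠ ⊥}) (n : N) : (g • x).1 n = x.1 (cj N g n) := rfl

end WeightsAux

open WeightsAux

theorem cent_finiteIndex {K V G : Type*} [Field K] [IsAlgClosed K] [AddCommGroup V] [Module K V]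
    [FiniteDimensional K V] [Group G] (ρ : G →* Module.End K V) (N : Subgroup G) [N.Normal]
    (hN : ∀ x ∈ N, ∀ y ∈ N, x * y = y * x)
    (hu : ∀ g : G, IsNilpotent (ρ g - 1) → g = 1) :
    (Subgroup.centralizer (N : Set G)).FiniteIndex := by
  classical
  have hcomm : ∀ x y : N, Commute (ρ x) (ρ y) := fun x y => by
    show ρ x * ρ y = ρ y * ρ x
    rw [← map_mul, ← map_mul, hN x x.2 y y.2]
  have htop : ⨆ χ, W ρ N χ = ⊤ :=
    Module.End.iSup_iInf_maxGenEigenspace_eq_top_of_iSup_maxGenEigenspace_eq_top_of_commute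
      (fun n : N => ρ n) (fun i j _ => hcomm i j)
      (fun i => Module.End.iSup_maxGenEigenspace_eq_top _)
  have hind : iSupIndep (W ρ N) :=
    Module.End.independent_iInf_maxGenEigenspace_of_forall_mapsTo (fun n : N => ρ n)
      (fun i j φ => Module.End.mapsTo_maxGenEigenspace_of_comm (hcomm j i) φ)
  have hfin : {χ | W ρ N χ ≠ ⊥}.Finite := WellFoundedGT.finite_ne_bot_of_iSupIndep hind
  have hFin : Finite {χ : N → K // W ρ N χ ≠ ⊥} := hfin.to_subtype
  let φ := MulAction.toPermHom G {χ : N → K // W ρ N χ ≠ ⊥}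
  have hker : φ.ker.FiniteIndex := inferInstance
  refine Subgroup.finiteIndex_of_le (H := φ.ker) ?_
  intro g hg
  rw [Subgroup.mem_centralizer_iff]
  intro n hn
  obtain ⟨n', hn'⟩ : ∃ n' : N, (n' : G) = n := ⟨⟨n, hn⟩, rfl⟩
  obtain ⟨m, hm⟩ : ∃ m : N, m = cj N g n' := ⟨_, rfl⟩
  have hmG : (m : G) = g⁻¹ * n * g := by rw [hm, ← hn']; rfl
  have hval : ∀ χ, W ρ N χ ≠ ⊥ → χ m = χ n' := by
    intro χ hχ
    have h1 : g • (⟨χ, hχ⟩ : {χ : N → K // W ρ N χ ≠ ⊥}) = ⟨χ, hχ⟩ := by
      have h2 : φ g = 1 := hg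
      have h3 : φ g (⟨χ, hχ⟩ : {χ : N → K // W ρ N χ ≠ ⊥}) = ⟨χ, hχ⟩ := by rw [h2]; rfl
      exact h3
    have h2 := smul_val ρ N g ⟨χ, hχ⟩ n'
    rw [h1] at h2
    rw [hm]
    exact h2.symm
  -- the difference is nilpotent
  have hall : (ρ m - ρ n').maxGenEigenspace (0 : K) = ⊤ := by
    rw [← top_le_iff, ← htop]
    refine iSup_le fun χ => ?_
    by_cases hχ : W ρ N χ = ⊥
    · rw [hχ]
      exact bot_le
    · intro w hw
      rw [mem_W] at hw
      have h1 := hw m
      have h2 := hw n'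
      rw [hval χ hχ] at h1
      have h3 : w ∈ (-(ρ n')).maxGenEigenspace (-(χ n')) := by
        rw [Module.End.mem_maxGenEigenspace] at h2 ⊢
        obtain ⟨k, hk⟩ := h2
        refine ⟨k, ?_⟩
        have h4 : -(ρ n') - (-(χ n')) • (1 : Module.End K V) =
            -(ρ n' - χ n' • (1 : Module.End K V)) := by
          rw [neg_smul]
          abel
        rw [h4]
        rcases Nat.even_or_odd k with hk2 | hk2
        · rw [hk2.neg_pow]
          exact hk
        · rw [hk2.neg_pow, LinearMap.neg_apply, hk, neg_zero]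
      have h5 := Module.End.genEigenspace_inf_le_add (ρ m) (-(ρ n')) (χ n') (-(χ n')) ⊤ ⊤
        ((hcomm m n').neg_right)
      have h6 := h5 ⟨h1, h3⟩
      rw [add_neg_cancel, ← sub_eq_add_neg, top_add] at h6
      exact h6
  have hnil : IsNilpotent (ρ m - ρ n') := by
    refine ⟨Module.finrank K V, ?_⟩
    rw [Module.End.maxGenEigenspace_eq_genEigenspace_finrank] at hall
    ext w
    have h1 : w ∈ (ρ m - ρ n').genEigenspace (0 : K) (Module.finrank K V) := by
      rw [hall]
      exact Submodule.mem_top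
    rw [Module.End.mem_genEigenspace_nat, zero_smul, sub_zero, LinearMap.mem_ker] at h1
    rw [h1]
    rfl
  have hnil2 : IsNilpotent (ρ ((m : G) * (n' : G)⁻¹) - 1) := by
    have h1 : ρ ((m : G) * (n' : G)⁻¹) - 1 = (ρ m - ρ n') * ρ ((n' : G)⁻¹) := by
      rw [sub_mul, ← map_mul, ← map_mul, mul_inv_cancel, map_one]
    rw [h1]
    refine Commute.isNilpotent_mul_right ?_ hnil
    have h2 := hcomm m (n'⁻¹)
    have h3 := hcomm n' (n'⁻¹)
    rw [Subgroup.coe_inv] at h2 h3
    exact h2.sub_left h3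
  have h1 := hu _ hnil2
  have h2 : (m : G) = n := by
    rw [mul_inv_eq_one] at h1
    rw [h1, hn']
  rw [hmG] at h2
  calc n * g = g * (g⁻¹ * n * g) := by group
    _ = g * n := by rw [h2]

end P9700a
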