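import Mathlib
import Pool.Agent.Lib.P9700a.Defs
import Pool.Agent.Lib.P9700a.Rank
import Pool.Agent.Lib.P9700a.Chain
import Pool.Agent.Lib.P9700a.ChainB
import Pool.Agent.Lib.P9700a.Irr
import Pool.Agent.Lib.P9700a.Ito
import Pool.Agent.Lib.P9700a.Weights
import Pool.Agent.Lib.P9700a.Cover
import Pool.Agent.Lib.P9700a.Cross

/-!
# The main induction

`irr_case` (irreducible faithful): `unip_trivial` + faithful: `IsNilpotent (ρ g - 1) → g = 1`. `TF.comm` for `ρ.comp A.subtype`: commutators of `A` are `1`, so `A` is abelian; same for `B`.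
`N = commutator G` abelian by `ito`; `cent_finiteIndex`, `FR_of_cent`, `FR_of_quot_comm`: `FR G`. Solvable: derived series of length 2 (`N` abelian).

`red_case` (faithful, `V0` invariant, proper and nonzero, and the statement for the actions on `V0` and `V ⧸ V0` known in the form
`FR (G ⧸ ker)`, `Group.IsSolvable (G ⧸ ker)` for their kernels `N0`, `N1` (normal subgroups of `G`)). `U = N0 ⊓ N1`: `ρ u - 1` maps `V` into `V0` and kills `V0`. `Φ : G →* (G ⧸ N0) × (G ⧸ N1)`, `ker Φ = U`.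
`τ : U → End K V`, `τ u = ρ u - 1`, `τ (u u') = τ u + τ u'` (product zero), injective. The additive subgroup `τ(U)` of `End K V` has finite rank by `cross` with
`H = {(a, b) ∈ A × B : a b⁻¹ ∈ U}` (subgroup of `A × B`), `α (a, b) φ = ρ a φ ρ a⁻¹`, `S` from `TF.hom hTA hTA`, `δ (a, b) = ρ (a b⁻¹) - 1`: with `u = a b⁻¹`, `u' = a' b'⁻¹`:
`a a' b'⁻¹ b⁻¹ = (a u' a⁻¹) u`, so `δ(h h') = τ(a u' a⁻¹) + τ(u) = α(h) δ(h') + δ(h)`. So `FR U` (`FR.of_injective` into `Multiplicative τ(U)`), `FR.of_ker_range Φ`.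
Solvable: `U` is abelian, `G ⧸ U` embeds into a product of solvable groups.

`main_ind`: induction on `n ≥ finrank K V`. `V` subsingleton: `G` is trivial (faithful). No invariant proper nonzero subspace: `irr_case`. Otherwise `V0`; apply the induction hypothesis to `G ⧸ N0` acting on `V0` faithfully
(`QuotientGroup.lift`), images of `A` and `B`, `TF.sub`; and to `G ⧸ N1` acting on `V ⧸ V0`, `TF.quot`.
-/

set_option autoImplicit false

universe u v w

namespace P9700a

theorem irr_case {K V G : Type*} [Field K] [IsAlgClosed K] [CharZero K] [AddCommGroup V]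
    [Module K V] [FiniteDimensional K V] [Group G] (ρ : G →* Module.End K V)
    (hρ : Function.Injective ρ) (A B : Subgroup G) (hA : FR A) (hB : FR B)
    (hAB : ∀ g : G, ∃ a ∈ A, ∃ b ∈ B, g = a * b)
    (hTA : TF (ρ '' (A : Set G))) (hTB : TF (ρ '' (B : Set G))) (hV : Nontrivial V)
    (hirr : ∀ X : Submodule K V, (∀ g : G, ∀ x ∈ X, ρ g x ∈ X) → X = ⊥ ∨ X = ⊤) :
    FR G ∧ Group.IsSolvable G := by
  have hu : ∀ g : G, IsNilpotent (ρ g - 1) → g = 1 := fun g hg =>
    hρ ((unip_trivial ρ A B hA hB hAB hTA hTB hV hirr g hg).trans ρ.map_one.symm)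
  have habel : ∀ C : Subgroup G, TF (ρ '' (C : Set G)) → ∀ x ∈ C, ∀ y ∈ C, x * y = y * x := by
    intro C hC x hx y hy
    have h1 := TF.comm (ρ.comp C.subtype) _ hC (fun h => ⟨h, h.2, rfl⟩) ⟨x, hx⟩ ⟨y, hy⟩
    have h2 := hu (x * y * x⁻¹ * y⁻¹) (by simpa using h1)
    calc x * y = (x * y * x⁻¹ * y⁻¹) * (y * x) := by group
      _ = y * x := by rw [h2, one_mul]
  have hAa := habel A hTA
  have hBa := habel B hTB
  have hN := ito A B hAa hBa hAB
  have hC := cent_finiteIndex ρ (commutator G) hN hu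
  have hFN := FR_of_cent A B (commutator G) hA hB hAB hN hC
  refine ⟨FR_of_quot_comm A B (commutator G) hA hB hAB le_rfl hFN, ?_⟩
  refine ⟨⟨2, ?_⟩⟩
  rw [derivedSeries_succ, derivedSeries_one, Subgroup.commutator_eq_bot_iff_le_centralizer]
  intro x hx
  rw [Subgroup.mem_centralizer_iff]
  intro y hy
  exact hN y hy x hx

theorem red_case {K V G : Type*} [Field K] [CharZero K] [AddCommGroup V]
    [Module K V] [Group G] (ρ : G →* Module.End K V)
    (hρ : Function.Injective ρ) (A B : Subgroup G) (hA : FR A) (hB : FR B)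
    (hAB : ∀ g : G, ∃ a ∈ A, ∃ b ∈ B, g = a * b) (hTA : TF (ρ '' (A : Set G)))
    (V0 : Submodule K V) (N0 N1 : Subgroup G) [N0.Normal] [N1.Normal]
    (hN0 : ∀ g ∈ N0, ∀ x ∈ V0, ρ g x = x) (hN1 : ∀ g ∈ N1, ∀ x : V, ρ g x - x ∈ V0)
    (h0 : FR (G ⧸ N0) ∧ Group.IsSolvable (G ⧸ N0)) (h1 : FR (G ⧸ N1) ∧ Group.IsSolvable (G ⧸ N1)) :
    FR G ∧ Group.IsSolvable G := by
  classical
  set U : Subgroup G := N0 ⊓ N1 with hUdef
  have hUn : U.Normal := inferInstance
  have hτ : ∀ u ∈ U, ∀ u' ∈ U, ρ (u * u') - 1 = (ρ u - 1) + (ρ u' - 1) := by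
    intro u hu u' hu'
    ext x
    have hy : ρ u' x - x ∈ V0 := hN1 u' hu'.2 x
    have h3 := hN0 u hu.1 _ hy
    rw [map_sub] at h3
    simp only [map_mul, LinearMap.sub_apply, Module.End.mul_apply, Module.End.one_apply,
      LinearMap.add_apply]
    have h4 : ρ u (ρ u' x) = ρ u x + (ρ u' x - x) := by rw [← h3]; abel
    rw [h4]; abel
  have hinj : ∀ u u' : G, ρ u - 1 = ρ u' - 1 → u = u' := fun u u' h => hρ (sub_left_injective h)
  have h1' : ρ (1 : G) - 1 = 0 := by simp
  have hinv : ∀ u ∈ U, ρ u⁻¹ - 1 = -(ρ u - 1) := by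
    intro u hu
    have := hτ u hu u⁻¹ (U.inv_mem hu)
    rw [mul_inv_cancel, h1'] at this
    exact (neg_eq_of_add_eq_zero_right this.symm).symm
  let U' : AddSubgroup (Module.End K V) :=
    { carrier := {φ | ∃ u ∈ U, ρ u - 1 = φ}
      zero_mem' := ⟨1, U.one_mem, h1'⟩
      add_mem' := by
        rintro _ _ ⟨u, hu, rfl⟩ ⟨u', hu', rfl⟩
        exact ⟨u * u', U.mul_mem hu hu', hτ u hu u' hu'⟩
      neg_mem' := by
        rintro _ ⟨u, hu, rfl⟩
        exact ⟨u⁻¹, U.inv_mem hu, hinv u hu⟩ }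
  let H : Subgroup (A × B) :=
    { carrier := {p | (p.1 : G) * (p.2 : G)⁻¹ ∈ U}
      one_mem' := by simp [U.one_mem]
      mul_mem' := by
        rintro ⟨a, b⟩ ⟨a', b'⟩ h h'
        simp only [Set.mem_ofPred_eq, Prod.fst_mul, Prod.snd_mul, Subgroup.coe_mul, mul_inv_rev] at *
        have : (a : G) * a' * ((b' : G)⁻¹ * (b : G)⁻¹) =
            ((a : G) * (a' * (b' : G)⁻¹) * (a : G)⁻¹) * (a * (b : G)⁻¹) := by group
        rw [this]
        exact U.mul_mem (hUn.conj_mem _ h' _) h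
      inv_mem' := by
        rintro ⟨a, b⟩ h
        simp only [Set.mem_ofPred_eq, Prod.fst_inv, Prod.snd_inv, Subgroup.coe_inv, inv_inv] at *
        have : (a : G)⁻¹ * b = (a : G)⁻¹ * ((a : G) * (b : G)⁻¹)⁻¹ * ((a : G)⁻¹)⁻¹ := by group
        rw [this]
        exact hUn.conj_mem _ (U.inv_mem h) _ }
  have hHmem : ∀ p : H, ((p : A × B).1 : G) * ((p : A × B).2 : G)⁻¹ ∈ U := fun p => p.2
  have hFH : FR H := FR.subgroup H (FR.prod hA hB)
  let α : H →* Module.End K (V →ₗ[K] V) :=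
    { toFun := fun h => LinearMap.mulLeft K (ρ (h : A × B).1) *
        LinearMap.mulRight K (ρ ((h : A × B).1 : G)⁻¹)
      map_one' := by
        ext φ x
        simp
      map_mul' := by
        intro h h'
        ext φ x
        simp [mul_assoc] }
  have hα : ∀ h, α h ∈ {β : Module.End K (V →ₗ[K] V) | ∃ s ∈ ρ '' (A : Set G),
      ∃ t ∈ ρ '' (A : Set G), ∀ φ : V →ₗ[K] V, β φ = s ∘ₗ φ ∘ₗ t} := by
    intro h
    refine ⟨_, ⟨(h : A × B).1, ((h : A × B).1).2, rfl⟩, _,
      ⟨((h : A × B).1 : G)⁻¹, A.inv_mem ((h : A × B).1).2, rfl⟩, ?_⟩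
    intro φ
    ext x
    simp [α]
  let δ : H → (V →ₗ[K] V) := fun h => ρ (((h : A × B).1 : G) * ((h : A × B).2 : G)⁻¹) - 1
  have hδ : ∀ h h' : H, δ (h * h') = α h (δ h') + δ h := by
    intro h h'
    have e1 : (((h * h' : H) : A × B).1 : G) * (((h * h' : H) : A × B).2 : G)⁻¹ =
        (((h : A × B).1 : G) * (((h' : A × B).1 : G) * ((h' : A × B).2 : G)⁻¹) *
          ((h : A × B).1 : G)⁻¹) * (((h : A × B).1 : G) * ((h : A × B).2 : G)⁻¹) := by
      simp only [Subgroup.coe_mul, Prod.fst_mul, Prod.snd_mul]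
      group
    show ρ _ - 1 = _
    rw [e1, hτ _ (hUn.conj_mem _ (hHmem h') _) _ (hHmem h)]
    congr 1
    ext x
    simp [α, δ, map_mul, mul_sub, sub_mul]
  have hU' : ∀ w, w ∈ U' ↔ ∃ h, δ h = w := by
    intro w
    constructor
    · rintro ⟨u, hu, rfl⟩
      obtain ⟨a, ha, b, hb, rfl⟩ := hAB u
      refine ⟨⟨⟨⟨a, ha⟩, ⟨b⁻¹, B.inv_mem hb⟩⟩, ?_⟩, ?_⟩
      · show a * (b⁻¹)⁻¹ ∈ U
        rwa [inv_inv]
      · show ρ (a * (b⁻¹)⁻¹) - 1 = _
        rw [inv_inv]
    · rintro ⟨h, rfl⟩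
      exact ⟨_, hHmem h, rfl⟩
  have hF := cross hFH α _ (TF.hom hTA hTA) hα δ hδ U' hU'
  let τ : U →* Multiplicative U' :=
    { toFun := fun u => Multiplicative.ofAdd ⟨ρ (u : G) - 1, u, u.2, rfl⟩
      map_one' := by
        rw [← ofAdd_zero]
        congr 1
        exact Subtype.ext h1'
      map_mul' := by
        intro u u'
        rw [← ofAdd_add]
        congr 1
        exact Subtype.ext (hτ u u.2 u' u'.2) }
  have hτi : Function.Injective τ := by
    intro u u' h
    have h' := congrArg (fun z => ((Multiplicative.toAdd z : U') : Module.End K V)) h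
    exact Subtype.ext (hinj _ _ h')
  have hFU : FR U := FR.of_injective τ hτi hF
  let Φ : G →* (G ⧸ N0) × (G ⧸ N1) := (QuotientGroup.mk' N0).prod (QuotientGroup.mk' N1)
  have hker : Φ.ker = U := by
    rw [MonoidHom.ker_prod, QuotientGroup.ker_mk', QuotientGroup.ker_mk']
  have hFk : FR Φ.ker := by rw [hker]; exact hFU
  refine ⟨FR.of_ker_range Φ hFk (FR.subgroup _ (FR.prod h0.1 h1.1)), ?_⟩
  have hUs : Group.IsSolvable U := by
    refine Group.isSolvable_of_comm fun y x => ?_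
    have e := mul_comm (τ y) (τ x)
    rw [← map_mul, ← map_mul] at e
    exact hτi e
  have := h0.2
  have := h1.2
  exact Group.isSolvable_of_ker_le_range U.subtype Φ (by rw [hker, Subgroup.range_subtype])

theorem main_ind (K : Type w) [Field K] [IsAlgClosed K] [CharZero K] (n : ℕ) :
    ∀ (G : Type u) [Group G] (V : Type v) [AddCommGroup V] [Module K V] [FiniteDimensional K V]
      (ρ : G →* Module.End K V), Module.finrank K V ≤ n → Function.Injective ρ →
      ∀ A B : Subgroup G, FR A → FR B → (∀ g : G, ∃ a ∈ A, ∃ b ∈ B, g = a * b) →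
      TF (ρ '' (A : Set G)) → TF (ρ '' (B : Set G)) → FR G ∧ Group.IsSolvable G := by
  induction n with
  | zero =>
    intro G _ V _ _ _ ρ hn hρ A B hA hB hAB hTA hTB
    have hV : Subsingleton V := by
      rw [← Module.finrank_zero_iff (R := K)]; omega
    have hG : Subsingleton G := ⟨fun x y => hρ (LinearMap.ext fun v => Subsingleton.elim _ _)⟩
    exact ⟨FR.of_finite, inferInstance⟩
  | succ n ih =>
    intro G _ V _ _ _ ρ hn hρ A B hA hB hAB hTA hTB
    rcases subsingleton_or_nontrivial V with hV | hV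
    · have hG : Subsingleton G := ⟨fun x y => hρ (LinearMap.ext fun v => Subsingleton.elim _ _)⟩
      exact ⟨FR.of_finite, inferInstance⟩
    by_cases hirr : ∀ X : Submodule K V, (∀ g : G, ∀ x ∈ X, ρ g x ∈ X) → X = ⊥ ∨ X = ⊤
    · exact irr_case ρ hρ A B hA hB hAB hTA hTB hV hirr
    push Not at hirr
    obtain ⟨V0, hV0, hbot, htop⟩ := hirr
    -- action on `V0`
    let ρ0 : G →* Module.End K V0 :=
      { toFun := fun g => (ρ g).restrict (hV0 g)
        map_one' := by ext x; simp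
        map_mul' := by intro x y; ext z; simp }
    let ρ1 : G →* Module.End K (V ⧸ V0) :=
      { toFun := fun g => V0.mapQ V0 (ρ g) (hV0 g)
        map_one' := by ext x; simp
        map_mul' := by intro x y; ext z; simp }
    have key : ∀ (W : Type v) [AddCommGroup W] [Module K W] [FiniteDimensional K W]
        (σ : G →* Module.End K W), Module.finrank K W ≤ n → TF (σ '' (A : Set G)) →
        TF (σ '' (B : Set G)) → FR (G ⧸ σ.ker) ∧ Group.IsSolvable (G ⧸ σ.ker) := by
      intro W _ _ _ σ hW hTA' hTB'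
      let σ' : (G ⧸ σ.ker) →* Module.End K W := QuotientGroup.lift σ.ker σ (fun x hx => hx)
      have hσ' : ∀ g : G, σ' (g : G ⧸ σ.ker) = σ g := fun g => rfl
      have hinj : Function.Injective σ' := by
        intro x y
        induction x using QuotientGroup.induction_on with | H x => ?_
        induction y using QuotientGroup.induction_on with | H y => ?_
        intro h
        rw [hσ', hσ'] at h
        rw [QuotientGroup.eq, MonoidHom.mem_ker, map_mul, ← h, ← map_mul, inv_mul_cancel, map_one]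
      have himg : ∀ C : Subgroup G, σ' '' ((C.map (QuotientGroup.mk' σ.ker) : Subgroup _) : Set _)
          = σ '' (C : Set G) := by
        intro C
        ext φ
        constructor
        · rintro ⟨_, ⟨g, hg, rfl⟩, rfl⟩
          exact ⟨g, hg, rfl⟩
        · rintro ⟨g, hg, rfl⟩
          exact ⟨_, ⟨g, hg, rfl⟩, rfl⟩
      have hFR : ∀ C : Subgroup G, FR C → FR (C.map (QuotientGroup.mk' σ.ker)) := by
        intro C hC
        refine FR.of_surjective (((QuotientGroup.mk' σ.ker).subgroupMap C)) ?_ hC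
        exact MonoidHom.subgroupMap_surjective _ _
      refine ih (G ⧸ σ.ker) W σ' hW hinj _ _ (hFR A hA) (hFR B hB) ?_ ?_ ?_
      · intro x
        induction x using QuotientGroup.induction_on with | H x => ?_
        obtain ⟨a, ha, b, hb, rfl⟩ := hAB x
        exact ⟨_, ⟨a, ha, rfl⟩, _, ⟨b, hb, rfl⟩, rfl⟩
      · rw [himg]; exact hTA'
      · rw [himg]; exact hTB'
    have hsub : ∀ C : Subgroup G, TF (ρ '' (C : Set G)) → TF (ρ0 '' (C : Set G)) := by
      intro C hC
      refine TF.sub V0.subtype V0.subtype_injective ?_ hC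
      rintro _ ⟨g, hg, rfl⟩
      exact ⟨ρ g, ⟨g, hg, rfl⟩, fun w => rfl⟩
    have hquo : ∀ C : Subgroup G, TF (ρ '' (C : Set G)) → TF (ρ1 '' (C : Set G)) := by
      intro C hC
      refine TF.quot V0.mkQ (Submodule.mkQ_surjective _) ?_ hC
      rintro _ ⟨g, hg, rfl⟩
      exact ⟨ρ g, ⟨g, hg, rfl⟩, fun w => rfl⟩
    have hd0 : Module.finrank K V0 ≤ n := by
      have := Submodule.finrank_lt (lt_top_iff_ne_top.mpr htop).ne
      omega
    have hd1 : Module.finrank K (V ⧸ V0) ≤ n := by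
      have h1 := Submodule.finrank_quotient_add_finrank V0
      have h2 : 0 < Module.finrank K V0 := by
        rw [Nat.pos_iff_ne_zero]
        intro h
        exact hbot (Submodule.finrank_eq_zero.mp h)
      omega
    have h0 := key V0 ρ0 hd0 (hsub A hTA) (hsub B hTB)
    have h1 := key (V ⧸ V0) ρ1 hd1 (hquo A hTA) (hquo B hTB)
    refine red_case ρ hρ A B hA hB hAB hTA V0 ρ0.ker ρ1.ker ?_ ?_ h0 h1
    · intro g hg x hx
      have e := congrArg (fun φ : Module.End K V0 => ((φ ⟨x, hx⟩ : V0) : V))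
        (MonoidHom.mem_ker.mp hg)
      exact e
    · intro g hg x
      have e := congrArg (fun φ : Module.End K (V ⧸ V0) => φ (V0.mkQ x)) (MonoidHom.mem_ker.mp hg)
      have e' : V0.mkQ (ρ g x) = V0.mkQ x := e
      rwa [Submodule.mkQ_apply, Submodule.mkQ_apply, Submodule.Quotient.eq] at e'

end P9700a
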